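import Mathlib
import Pool.Agent.Helper610.Bohr.Basic

set_option autoImplicit false

/-! # Spirallike functions `z (1-z)^(-(1+γ))` and functions with bounded derivative -/

namespace Pool.Agent.X104.Spiral

open Complex Filter Topology Pool.Agent.Helper610.Bohr

/-- binomial coefficients: `(1-z)^(-c) = ∑ pc c m z^m` -/
noncomputable def pc (c : ℂ) (m : ℕ) : ℂ := ∏ k ∈ Finset.range m, (c + k) / (k + 1)

/-- `(1-z)^(-c)` -/
noncomputable def P (c z : ℂ) : ℂ := exp (-c * log (1 - z))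

theorem one_sub_re {z : ℂ} (hz : z ∈ Metric.ball (0:ℂ) 1) : 0 < (1 - z).re := by
  have h1 : ‖z‖ < 1 := by simpa using hz
  have h2 := abs_re_le_norm z
  have h3 := le_abs_self z.re
  simp only [sub_re, one_re]
  linarith

theorem one_sub_mem {z : ℂ} (hz : z ∈ Metric.ball (0:ℂ) 1) : 1 - z ∈ slitPlane :=
  Or.inl (one_sub_re hz)

theorem one_sub_ne {z : ℂ} (hz : z ∈ Metric.ball (0:ℂ) 1) : 1 - z ≠ 0 :=
  slitPlane_ne_zero (one_sub_mem hz)

theorem P_add (c d z : ℂ) : P (c + d) z = P c z * P d z := by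
  unfold P; rw [← exp_add]; congr 1; ring

theorem P_zero (c : ℂ) : P c 0 = 1 := by unfold P; simp

theorem P_ne (c z : ℂ) : P c z ≠ 0 := exp_ne_zero _

theorem P_one {z : ℂ} (hz : z ∈ Metric.ball (0:ℂ) 1) : P 1 z = 1 / (1 - z) := by
  unfold P
  rw [neg_one_mul, exp_neg, exp_log (one_sub_ne hz), one_div]

theorem P_deriv (c : ℂ) {z : ℂ} (hz : z ∈ Metric.ball (0:ℂ) 1) :
    HasDerivAt (P c) (c * P (c + 1) z) z := by
  have h1 : HasDerivAt (fun w : ℂ => 1 - w) (-1) z := by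
    simpa using (hasDerivAt_id z).const_sub 1
  have h2 := ((h1.clog (one_sub_mem hz)).const_mul (-c)).cexp
  have h3 : exp (-c * log (1 - z)) * (-c * (-1 / (1 - z))) = c * P (c + 1) z := by
    rw [P_add, P_one hz]
    unfold P
    ring
  rw [h3] at h2
  exact h2

theorem P_diff (c : ℂ) : DifferentiableOn ℂ (P c) (Metric.ball 0 1) := fun _ hz =>
  (P_deriv c hz).differentiableAt.differentiableWithinAt

theorem pc_succ (c : ℂ) (m : ℕ) : pc c (m + 1) = pc c m * ((c + m) / (m + 1)) := by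
  unfold pc; rw [Finset.prod_range_succ]

theorem pc_zero (c : ℂ) : pc c 0 = 1 := by unfold pc; simp

/-- Pochhammer symbol -/
noncomputable def A (c : ℂ) (m : ℕ) : ℂ := ∏ k ∈ Finset.range m, (c + k)

theorem iter (c : ℂ) (m : ℕ) : ∀ z ∈ Metric.ball (0:ℂ) 1,
    iteratedDeriv m (P c) z = A c m * P (c + m) z := by
  induction m with
  | zero =>
    intro z hz
    simp [A]
  | succ m ih =>
    intro z hz
    rw [iteratedDeriv_succ]
    have h1 : iteratedDeriv m (P c) =ᶠ[𝓝 z] fun z => A c m * P (c + m) z := by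
      filter_upwards [Metric.isOpen_ball.mem_nhds hz] with w hw
      exact ih w hw
    rw [h1.deriv_eq, ((P_deriv (c + m) hz).const_mul (A c m)).deriv]
    have e1 : A c (m + 1) = A c m * (c + m) := by
      unfold A; rw [Finset.prod_range_succ _ m]
    have e3 : c + ((m + 1 : ℕ) : ℂ) = c + m + 1 := by push_cast; ring
    rw [e1, e3]
    ring

theorem coeff_P (c : ℂ) : coeff (P c) = pc c := by
  funext m
  rw [coeff, iter c m 0 (Metric.mem_ball_self zero_lt_one), P_zero, mul_one]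
  unfold A pc
  rw [Finset.prod_div_distrib]
  have h1 : ∏ k ∈ Finset.range m, ((k : ℂ) + 1) = (m.factorial : ℂ) := by
    rw [← Finset.prod_range_add_one_eq_factorial]
    push_cast
    rfl
  rw [h1]

theorem ps_P (c : ℂ) : PS (P c) (pc c) := by
  have := PS.of_diff (P_diff c)
  rwa [coeff_P] at this

/-! ### univalence of the spirallike function -/

/-- the basic function `z (1-z)^(-c)` -/
noncomputable def Q (c z : ℂ) : ℂ := z * P c z

theorem Q_deriv (c : ℂ) {z : ℂ} (hz : z ∈ Metric.ball (0:ℂ) 1) :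
    HasDerivAt (Q c) (P c z + z * (c * P (c + 1) z)) z := by
  have := (hasDerivAt_id z).mul (P_deriv c hz)
  simp only [id, one_mul] at this
  exact this

theorem ps_Q (c : ℂ) : PS (Q c) (shiftSeq (pc c)) := (ps_P c).shift

section Univ

variable {γ : ℂ}

/-- logarithm of `Q (1+γ) (exp ζ)` -/
noncomputable def ell (γ ζ : ℂ) : ℂ := ζ - (1 + γ) * log (1 - exp ζ)

theorem exp_mem {ζ : ℂ} (h : ζ.re < 0) : exp ζ ∈ Metric.ball (0:ℂ) 1 := by
  rw [mem_ball_zero_iff, norm_exp]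
  exact Real.exp_lt_one_iff.mpr h

theorem ell_deriv {ζ : ℂ} (h : ζ.re < 0) :
    HasDerivAt (ell γ) (1 + (1 + γ) * exp ζ / (1 - exp ζ)) ζ := by
  have h1 : HasDerivAt (fun w : ℂ => 1 - exp w) (-exp ζ) ζ := (hasDerivAt_exp ζ).const_sub 1
  have h2 := (hasDerivAt_id ζ).sub ((h1.clog (one_sub_mem (exp_mem h))).const_mul (1 + γ))
  have h3 : 1 - (1 + γ) * (-exp ζ / (1 - exp ζ)) = 1 + (1 + γ) * exp ζ / (1 - exp ζ) := by ring
  rw [h3] at h2
  exact h2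

theorem ell_pos (hγ : ‖γ‖ ≤ 1) (hγ1 : 1 + γ ≠ 0) {ζ : ℂ} (h : ζ.re < 0) :
    0 < ((starRingEnd ℂ) (1 + γ) * (1 + (1 + γ) * exp ζ / (1 - exp ζ))).re := by
  have hm := exp_mem h
  generalize exp ζ = w at hm
  have hw : ‖w‖ < 1 := by simpa using hm
  have hne := one_sub_ne hm
  have e1 : (starRingEnd ℂ) (1 + γ) * (1 + (1 + γ) * w / (1 - w)) =
      (starRingEnd ℂ) (1 + γ) - (normSq (1 + γ) : ℂ) + (normSq (1 + γ) : ℂ) * (1 - w)⁻¹ := by
    rw [← Complex.mul_conj]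
    field_simp
    ring
  rw [e1]
  have e2 : ((starRingEnd ℂ) (1 + γ) - (normSq (1 + γ) : ℂ) + (normSq (1 + γ) : ℂ) *
      (1 - w)⁻¹ : ℂ).re = 1 + γ.re - normSq (1 + γ) + normSq (1 + γ) * ((1 - w)⁻¹).re := by
    rw [add_re, re_ofReal_mul]
    simp
  rw [e2, inv_re]
  have h3 : 0 < normSq (1 - w) := normSq_pos.mpr hne
  have h4 : 1 / 2 < (1 - w).re / normSq (1 - w) := by
    rw [lt_div_iff₀ h3, normSq_apply]
    simp only [sub_re, one_re, sub_im, one_im]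
    have h5 : w.re * w.re + w.im * w.im < 1 := by
      rw [← normSq_apply, normSq_eq_norm_sq]
      nlinarith [norm_nonneg w]
    nlinarith
  have h6 : normSq (1 + γ) ≤ 2 * (1 + γ.re) := by
    have : γ.re * γ.re + γ.im * γ.im ≤ 1 := by
      rw [← normSq_apply, normSq_eq_norm_sq]
      nlinarith [norm_nonneg γ]
    rw [normSq_apply]
    simp only [add_re, one_re, add_im, one_im]
    nlinarith
  have h7 : 0 < normSq (1 + γ) := normSq_pos.mpr hγ1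
  have h8 := mul_lt_mul_of_pos_left h4 h7
  linarith

theorem ell_inj (hγ : ‖γ‖ ≤ 1) (hγ1 : 1 + γ ≠ 0) {ζ ξ : ℂ} (h1 : ζ.re < 0) (h2 : ξ.re < 0)
    (h : ell γ ζ = ell γ ξ) : ζ = ξ := by
  by_contra hne
  have hD : ζ - ξ ≠ 0 := sub_ne_zero.mpr hne
  let p : ℝ → ℂ := fun s => ξ + s * (ζ - ξ)
  have hp : ∀ s ∈ Set.Icc (0:ℝ) 1, (p s).re < 0 := by
    intro s hs
    have e : (p s).re = (1 - s) * ξ.re + s * ζ.re := by
      simp only [p, add_re, re_ofReal_mul, sub_re]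
      ring
    rw [e]
    rcases eq_or_lt_of_le hs.1 with h0 | h0
    · rw [← h0]; linarith
    · nlinarith [hs.2]
  let u : ℝ → ℝ := fun s => ((starRingEnd ℂ) (1 + γ) * (ell γ (p s) / (ζ - ξ))).re
  have hu : ∀ s ∈ Set.Icc (0:ℝ) 1, HasDerivAt u
      (((starRingEnd ℂ) (1 + γ) * (1 + (1 + γ) * exp (p s) / (1 - exp (p s)))).re) s := by
    intro s hs
    have hps : HasDerivAt p (ζ - ξ) s := by
      have := ((hasDerivAt_id (s:ℝ)).ofReal_comp.mul_const (ζ - ξ)).const_add ξ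
      exact this.congr_deriv (by simp)
    have hc := (ell_deriv (γ := γ) (hp s hs)).comp s hps
    have hc2 := (hc.div_const (ζ - ξ)).const_mul ((starRingEnd ℂ) (1 + γ))
    have e : (starRingEnd ℂ) (1 + γ) *
        ((1 + (1 + γ) * exp (p s) / (1 - exp (p s))) * (ζ - ξ) / (ζ - ξ)) =
        (starRingEnd ℂ) (1 + γ) * (1 + (1 + γ) * exp (p s) / (1 - exp (p s))) := by
      rw [mul_div_assoc, div_self hD, mul_one]
    rw [e] at hc2
    exact (Complex.reCLM.hasFDerivAt.comp_hasDerivAt s hc2)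
  obtain ⟨s, hs, hs'⟩ := exists_hasDerivAt_eq_slope u _ zero_lt_one
    (fun s hs => (hu s hs).continuousAt.continuousWithinAt)
    (fun s hs => hu s (Set.Ioo_subset_Icc_self hs))
  have hpos := ell_pos hγ hγ1 (hp s (Set.Ioo_subset_Icc_self hs))
  have e0 : u 1 - u 0 = 0 := by
    simp only [u, p]
    have a1 : ξ + ((1:ℝ):ℂ) * (ζ - ξ) = ζ := by push_cast; ring
    have a0 : ξ + ((0:ℝ):ℂ) * (ζ - ξ) = ξ := by push_cast; ring
    rw [a1, a0, h]
    ring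
  rw [e0] at hs'
  simp only [sub_zero, div_one] at hs'
  rw [hs'] at hpos
  exact lt_irrefl _ hpos

theorem ell_add (ζ : ℂ) (n : ℤ) :
    ell γ (ζ + n * (2 * Real.pi * I)) = ell γ ζ + n * (2 * Real.pi * I) := by
  unfold ell
  rw [exp_add, exp_int_mul_two_pi_mul_I, mul_one]
  ring

theorem Q_inj (hγ : ‖γ‖ ≤ 1) (hγ1 : 1 + γ ≠ 0) :
    Set.InjOn (Q (1 + γ)) (Metric.ball (0:ℂ) 1) := by
  intro z hz z' hz' h
  by_cases h0 : z = 0
  · rw [h0] at h ⊢
    unfold Q at h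
    rw [zero_mul] at h
    rcases mul_eq_zero.mp h.symm with h1 | h1
    · exact h1.symm
    · exact absurd h1 (P_ne _ _)
  by_cases h0' : z' = 0
  · rw [h0'] at h ⊢
    unfold Q at h
    rw [zero_mul] at h
    rcases mul_eq_zero.mp h with h1 | h1
    · exact h1
    · exact absurd h1 (P_ne _ _)
  have hlog : ∀ w ∈ Metric.ball (0:ℂ) 1, w ≠ 0 → (log w).re < 0 ∧
      Q (1 + γ) w = exp (ell γ (log w)) := by
    intro w hw hw0
    have hw1 : ‖w‖ < 1 := by simpa using hw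
    refine ⟨?_, ?_⟩
    · rw [log_re]
      exact Real.log_neg (norm_pos_iff.mpr hw0) hw1
    · unfold Q ell P
      rw [exp_log hw0, show log w - (1 + γ) * log (1 - w) = log w + (-(1 + γ) * log (1 - w)) by ring,
        exp_add, exp_log hw0]
  obtain ⟨r1, e1⟩ := hlog z hz h0
  obtain ⟨r2, e2⟩ := hlog z' hz' h0'
  rw [e1, e2] at h
  obtain ⟨n, hn⟩ := exp_eq_exp_iff_exists_int.mp h
  rw [← ell_add] at hn
  have hre : (log z' + n * (2 * Real.pi * I)).re < 0 := by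
    have : (log z' + n * (2 * Real.pi * I)).re = (log z').re := by simp
    rw [this]; exact r2
  have h3 := ell_inj hγ hγ1 r1 hre hn
  have h4 := congrArg exp h3
  rw [exp_add, exp_int_mul_two_pi_mul_I, mul_one, exp_log h0, exp_log h0'] at h4
  exact h4

end Univ

/-! ### the family of parameters -/

/-- the parameter of the spirallike function -/
noncomputable def gam (τ : ℝ) : ℂ := 1 - τ ^ 2 + τ * I

/-- the exponent parameter of the neighbourhood function -/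
noncomputable def bb (τ : ℝ) : ℂ := -(1 + τ * I)

theorem norm_gam {τ : ℝ} (h1 : τ ≤ 1 / 10) (h0 : 0 < τ) : ‖gam τ‖ ≤ 1 := by
  have h : ‖gam τ‖ ^ 2 ≤ 1 ^ 2 := by
    unfold gam
    rw [← normSq_eq_norm_sq, normSq_apply]
    have e1 : (1 - (τ : ℂ) ^ 2 + τ * I).re = 1 - τ ^ 2 := by
      simp [← ofReal_pow]
    have e2 : (1 - (τ : ℂ) ^ 2 + τ * I).im = τ := by
      simp [← ofReal_pow]
    rw [e1, e2]
    have hT : 0 ≤ τ ^ 2 := sq_nonneg τ
    have hT1 : τ ^ 2 ≤ 1 := by nlinarith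
    nlinarith [mul_nonneg hT (by linarith : 0 ≤ 1 - τ ^ 2)]
  exact le_of_sq_le_sq h (by norm_num)

theorem one_add_gam {τ : ℝ} (h1 : τ ≤ 1 / 10) (h0 : 0 < τ) : 1 + gam τ ≠ 0 := by
  intro h
  have := congrArg Complex.re h
  unfold gam at this
  simp [← ofReal_pow] at this
  nlinarith

/-- the terms of the pairing -/
noncomputable def t (τ : ℝ) (m : ℕ) : ℂ := pc (1 + gam τ) m * pc (bb τ) m

noncomputable def X (τ : ℝ) (m : ℕ) : ℂ := m * t τ m

theorem t_succ (τ : ℝ) (m : ℕ) :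
    t τ (m + 1) = t τ m * ((1 + gam τ + m) * (m - 1 - τ * I) / ((m + 1) * (m + 1))) := by
  unfold t
  rw [pc_succ, pc_succ]
  have h : (m : ℂ) + 1 ≠ 0 := Nat.cast_add_one_ne_zero m
  unfold bb
  field_simp
  ring

theorem t_zero (τ : ℝ) : t τ 0 = 1 := by unfold t pc; simp

theorem t_step (τ p q : ℝ) (m : ℕ) (h : t τ m = (p : ℂ) + (q : ℂ) * I) :
    t τ (m + 1) =
      (((p * ((2 + m - τ ^ 2) * (m - 1) + τ ^ 2) - q * (τ * (m - 1 - (2 + m - τ ^ 2)))) /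
        ((m + 1) * (m + 1)) : ℝ) : ℂ) +
      (((p * (τ * (m - 1 - (2 + m - τ ^ 2))) + q * ((2 + m - τ ^ 2) * (m - 1) + τ ^ 2)) /
        ((m + 1) * (m + 1)) : ℝ) : ℂ) * I := by
  rw [t_succ τ m, h]
  have hm : (m : ℂ) + 1 ≠ 0 := Nat.cast_add_one_ne_zero m
  unfold gam
  push_cast
  field_simp
  linear_combination (-(τ : ℂ) ^ 2 * (p + q * I) + q * (τ * (m - 1 - (2 + m - τ ^ 2)))) * I_sq

theorem t_four_terms (τ : ℝ) :
    (t τ 1).im = -(3 * τ - τ ^ 3) ∧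
    (t τ 2).im = 3 / 2 * τ - 11 / 4 * τ ^ 3 + 3 / 4 * τ ^ 5 ∧
    (t τ 3).im = 2 / 3 * τ - 11 / 36 * τ ^ 3 - 23 / 36 * τ ^ 5 + 11 / 36 * τ ^ 7 - 1 / 36 * τ ^ 9 := by
  have h0 : t τ 0 = ((1 : ℝ) : ℂ) + ((0 : ℝ) : ℂ) * I := by rw [t_zero]; simp
  have h1 := t_step τ _ _ 0 h0
  have h2 := t_step τ _ _ 1 h1
  have h3 := t_step τ _ _ 2 h2
  refine ⟨?_, ?_, ?_⟩
  · change (t τ (0 + 1)).im = _
    rw [h1]
    simp only [add_im, mul_im, ofReal_re, ofReal_im, I_re, I_im]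
    push_cast
    ring
  · change (t τ (1 + 1)).im = _
    rw [h2]
    simp only [add_im, mul_im, ofReal_re, ofReal_im, I_re, I_im]
    push_cast
    ring
  · change (t τ (2 + 1)).im = _
    rw [h3]
    simp only [add_im, mul_im, ofReal_re, ofReal_im, I_re, I_im]
    push_cast
    ring

theorem norm_step {τ : ℝ} (h1 : τ ≤ 1 / 10) (h0 : 0 < τ) (m : ℕ) {B c : ℝ} (hB : ‖t τ m‖ ≤ B)
    (hc : ‖(m : ℂ) - 1 - τ * I‖ ≤ c) (hB0 : 0 ≤ B) :
    ‖t τ (m + 1)‖ ≤ B * ((m + 2) * c / ((m + 1) * (m + 1))) := by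
  rw [t_succ, norm_mul, norm_div, norm_mul, norm_mul]
  have e1 : ‖(m : ℂ) + 1‖ = m + 1 := by
    have : (m : ℂ) + 1 = ((m + 1 : ℕ) : ℂ) := by push_cast; rfl
    rw [this, norm_natCast]
    push_cast
    rfl
  have e2 : ‖1 + gam τ + m‖ ≤ m + 2 := by
    have := norm_gam h1 h0
    calc ‖1 + gam τ + m‖ ≤ ‖(1 : ℂ)‖ + ‖gam τ‖ + ‖(m : ℂ)‖ := norm_add₃_le
      _ ≤ 1 + 1 + m := by rw [norm_one, norm_natCast]; linarith
      _ = m + 2 := by ring
  rw [e1]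
  gcongr

theorem norm_aux {τ : ℝ} (h1 : τ ≤ 1 / 10) (h0 : 0 < τ) (a : ℝ) (ha : 1 ≤ |a|) :
    ‖(a : ℂ) - τ * I‖ ≤ |a| + 1 / 200 := by
  have h : ‖(a : ℂ) - τ * I‖ ^ 2 ≤ (|a| + 1 / 200) ^ 2 := by
    rw [← normSq_eq_norm_sq, normSq_apply]
    simp
    have := sq_abs a
    nlinarith
  exact le_of_sq_le_sq h (by positivity)

theorem norm_t_four {τ : ℝ} (h1 : τ ≤ 1 / 10) (h0 : 0 < τ) : ‖t τ 4‖ ≤ 43 / 100 * τ := by
  have s0 : ‖t τ 0‖ ≤ 1 := by rw [t_zero, norm_one]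
  have s1 := norm_step h1 h0 0 (c := 201 / 200) s0 (by
    have := norm_aux h1 h0 (-1) (by simp)
    norm_num at this ⊢
    exact this) (by norm_num)
  have s2 := norm_step h1 h0 1 (c := τ) s1 (by
    simp [abs_of_pos h0]) (by norm_num)
  have s3 := norm_step h1 h0 2 (c := 201 / 200) s2 (by
    have := norm_aux h1 h0 1 (by simp)
    norm_num at this ⊢
    exact this) (by positivity)
  have s4 := norm_step h1 h0 3 (c := 401 / 200) s3 (by
    have := norm_aux h1 h0 2 (by simp)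
    norm_num at this ⊢
    exact this) (by positivity)
  norm_num at s4
  linarith

/-- `X_{m+1} = X_m (m+1+γ)(m-1-iτ) / (m (m+1))` -/
theorem X_succ (τ : ℝ) (m : ℕ) (hm : 1 ≤ m) :
    X τ (m + 1) = X τ m * ((1 + gam τ + m) * (m - 1 - τ * I) / (m * (m + 1))) := by
  unfold X
  rw [t_succ]
  have h : (m : ℂ) + 1 ≠ 0 := Nat.cast_add_one_ne_zero m
  have h' : (m : ℂ) ≠ 0 := by exact_mod_cast (by omega : m ≠ 0)
  push_cast
  field_simp

theorem ratio_bound {τ : ℝ} (h1 : τ ≤ 1 / 10) (h0 : 0 < τ) (m : ℕ) (hm : 4 ≤ m) :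
    ‖(1 + gam τ + m) * (m - 1 - τ * I) / (m * (m + 1))‖ ≤ 1 - τ ^ 2 / (m + 1) := by
  have hm' : (4 : ℝ) ≤ m := by exact_mod_cast hm
  have hT0 : 0 < τ ^ 2 := by positivity
  have hT1 : τ ^ 2 ≤ 1 / 100 := by nlinarith
  have hpos : 0 < 1 - τ ^ 2 / (m + 1) := by
    have : τ ^ 2 / (m + 1) < 1 := by
      rw [div_lt_one (by linarith)]; linarith
    linarith
  apply le_of_sq_le_sq _ hpos.le
  rw [norm_div, norm_mul, div_pow, mul_pow, ← normSq_eq_norm_sq, ← normSq_eq_norm_sq,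
    ← normSq_eq_norm_sq]
  have e1 : normSq (1 + gam τ + (m : ℂ)) = (m + 2 - τ ^ 2) ^ 2 + τ ^ 2 := by
    unfold gam
    rw [normSq_apply]
    simp [← ofReal_pow]
    ring
  have e2 : normSq ((m : ℂ) - 1 - τ * I) = (m - 1) ^ 2 + τ ^ 2 := by
    rw [normSq_apply]
    simp
    ring
  have e3 : normSq ((m : ℂ) * (m + 1)) = (m * (m + 1)) ^ 2 := by
    rw [normSq_apply]
    simp
    ring
  rw [e1, e2, e3, div_le_iff₀ (by positivity)]
  have e4 : (1 - τ ^ 2 / (m + 1)) ^ 2 * (m * (m + 1)) ^ 2 = (m * (m + 1 - τ ^ 2)) ^ 2 := by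
    field_simp
  rw [e4]
  generalize τ ^ 2 = T at hT0 hT1
  generalize (m : ℝ) = M at hm'
  have key : (M * (M + 1 - T)) ^ 2 - ((M + 2 - T) ^ 2 + T) * ((M - 1) ^ 2 + T) =
      2 * (2 - T) * (M * (M + 1 - T)) - (2 - T) ^ 2 - T * ((M + 2 - T) ^ 2 + (M - 1) ^ 2) - T ^ 2 := by
    ring
  have k1 : 3 * (M * M) ≤ 2 * (2 - T) * (M * (M + 1 - T)) := by nlinarith
  have k2 : T * ((M + 2 - T) ^ 2 + (M - 1) ^ 2) ≤ M * M := by
    have : (M + 2 - T) ^ 2 + (M - 1) ^ 2 ≤ 100 * (M * M) := by nlinarith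
    nlinarith [mul_nonneg (by linarith : 0 ≤ M) (by linarith : 0 ≤ M)]
  nlinarith

theorem X_step {τ : ℝ} (h1 : τ ≤ 1 / 10) (h0 : 0 < τ) (m : ℕ) (hm : 4 ≤ m) :
    ‖X τ (m + 1)‖ ≤ (1 - τ ^ 2 / (m + 1)) * ‖X τ m‖ := by
  rw [X_succ τ m (by omega), norm_mul, mul_comm]
  exact mul_le_mul_of_nonneg_right (ratio_bound h1 h0 m hm) (norm_nonneg _)

theorem X_bound {τ : ℝ} (h1 : τ ≤ 1 / 10) (h0 : 0 < τ) (m : ℕ) (hm : 4 ≤ m) :
    ‖X τ m‖ ≤ 172 / 100 * τ := by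
  induction m, hm using Nat.le_induction with
  | base =>
    unfold X
    rw [norm_mul]
    have := norm_t_four h1 h0
    have e : ‖((4 : ℕ) : ℂ)‖ = 4 := by simp
    rw [e]
    linarith
  | succ m hm ih =>
    refine (X_step h1 h0 m hm).trans ?_
    have h1 : (0:ℝ) ≤ τ ^ 2 / (m + 1) := by positivity
    nlinarith [norm_nonneg (X τ m)]

theorem X_exp {τ : ℝ} (h1 : τ ≤ 1 / 10) (h0 : 0 < τ) (n : ℕ) : ‖X τ (n + 4)‖ ≤
    (172 / 100 * τ * Real.exp (τ ^ 2 * ∑ i ∈ Finset.range 4, 1 / ((i : ℝ) + 1))) *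
      Real.exp (-(τ ^ 2 * ∑ i ∈ Finset.range (n + 4), 1 / ((i : ℝ) + 1))) := by
  induction n with
  | zero =>
    rw [zero_add, mul_assoc, ← Real.exp_add]
    simp only [add_neg_cancel, Real.exp_zero, mul_one]
    exact X_bound h1 h0 4 le_rfl
  | succ n ih =>
    have h1' := X_step h1 h0 (n + 4) (by omega)
    have e : n + 1 + 4 = n + 4 + 1 := by ring
    rw [e]
    refine h1'.trans ?_
    have h2 : 1 - τ ^ 2 / (((n + 4 : ℕ) : ℝ) + 1) ≤
        Real.exp (-(τ ^ 2 * (1 / (((n + 4 : ℕ) : ℝ) + 1)))) := by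
      have := Real.add_one_le_exp (-(τ ^ 2 * (1 / (((n + 4 : ℕ) : ℝ) + 1))))
      refine le_trans (le_of_eq ?_) this
      ring
    have h3 : 0 ≤ 1 - τ ^ 2 / (((n + 4 : ℕ) : ℝ) + 1) := by
      have : τ ^ 2 / (((n + 4 : ℕ) : ℝ) + 1) ≤ 1 := by
        rw [div_le_one (by positivity)]
        have : (0:ℝ) ≤ ((n + 4 : ℕ) : ℝ) := Nat.cast_nonneg _
        nlinarith
      linarith
    calc (1 - τ ^ 2 / (((n + 4 : ℕ) : ℝ) + 1)) * ‖X τ (n + 4)‖
        ≤ Real.exp (-(τ ^ 2 * (1 / (((n + 4 : ℕ) : ℝ) + 1)))) * _ :=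
          mul_le_mul h2 ih (norm_nonneg _) (Real.exp_pos _).le
      _ = _ := by
        rw [Finset.sum_range_succ _ (n + 4), mul_comm, mul_assoc, ← Real.exp_add]
        congr 2
        ring

theorem X_tendsto {τ : ℝ} (h1 : τ ≤ 1 / 10) (h0 : 0 < τ) : Tendsto (X τ) atTop (𝓝 0) := by
  rw [← tendsto_add_atTop_iff_nat 4]
  apply squeeze_zero_norm (X_exp h1 h0)
  rw [← mul_zero (172 / 100 * τ * Real.exp (τ ^ 2 * ∑ i ∈ Finset.range 4, 1 / ((i : ℝ) + 1)))]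
  apply Tendsto.const_mul
  apply Real.tendsto_exp_neg_atTop_nhds_zero.comp
  apply Tendsto.const_mul_atTop (by positivity)
  exact (Real.tendsto_sum_range_one_div_nat_succ_atTop).comp (tendsto_add_atTop_nat 4)

/-- the telescoping identity -/
theorem telescope (τ : ℝ) (M : ℕ) : X τ M = -(τ : ℂ) ^ 2 * ∑ m ∈ Finset.range M, t τ m +
    ((τ : ℂ) ^ 2 - (1 + gam τ) * (1 + τ * I)) * ∑ m ∈ Finset.range M, t τ m / (m + 1) := by
  induction M with
  | zero => unfold X; simp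
  | succ M ih =>
    rw [Finset.sum_range_succ, Finset.sum_range_succ]
    have h : (M : ℂ) + 1 ≠ 0 := Nat.cast_add_one_ne_zero M
    have e : X τ (M + 1) = X τ M - (τ : ℂ) ^ 2 * t τ M +
        ((τ : ℂ) ^ 2 - (1 + gam τ) * (1 + τ * I)) * (t τ M / (M + 1)) := by
      unfold X
      rw [t_succ]
      unfold gam
      push_cast
      field_simp
      ring
    rw [e, ih]
    ring

noncomputable def qs (τ : ℝ) (M : ℕ) : ℂ := ∑ m ∈ Finset.range M, t τ m / (m + 1)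

theorem term_bound {τ : ℝ} (h1 : τ ≤ 1 / 10) (h0 : 0 < τ) (n : ℕ) :
    ‖t τ (n + 4) / (((n + 4 : ℕ) : ℂ) + 1)‖ ≤
    172 / 100 * τ * (1 / ((n + 4 : ℝ)) - 1 / ((n + 5 : ℝ))) := by
  have h1 := X_bound h1 h0 (n + 4) (by omega)
  unfold X at h1
  rw [norm_mul] at h1
  have e1 : ‖((n + 4 : ℕ) : ℂ)‖ = (n : ℝ) + 4 := by
    rw [norm_natCast]; push_cast; ring
  rw [e1] at h1
  have e2 : ‖((n + 4 : ℕ) : ℂ) + 1‖ = (n : ℝ) + 5 := by
    have : ((n + 4 : ℕ) : ℂ) + 1 = ((n + 5 : ℕ) : ℂ) := by push_cast; ring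
    rw [this, norm_natCast]; push_cast; ring
  rw [norm_div, e2]
  have hn : (0:ℝ) ≤ n := Nat.cast_nonneg n
  have e3 : 1 / ((n + 4 : ℝ)) - 1 / ((n + 5 : ℝ)) = 1 / ((n + 4) * (n + 5)) := by
    field_simp
    ring
  rw [e3, div_le_iff₀ (by linarith)]
  have e4 : 172 / 100 * τ * (1 / (((n : ℝ) + 4) * (n + 5))) * (n + 5) = 172 / 100 * τ / (n + 4) := by
    field_simp
  rw [e4, le_div_iff₀ (by linarith)]
  linarith

theorem qs_bound {τ : ℝ} (h1 : τ ≤ 1 / 10) (h0 : 0 < τ) (n : ℕ) :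
    ‖qs τ (n + 4) - qs τ 4‖ ≤ 172 / 100 * τ * (1 / 4 - 1 / ((n + 4 : ℝ))) := by
  induction n with
  | zero => simp
  | succ n ih =>
    have e : qs τ (n + 1 + 4) = qs τ (n + 4) + t τ (n + 4) / (((n + 4 : ℕ) : ℂ) + 1) := by
      unfold qs
      rw [show n + 1 + 4 = (n + 4) + 1 by ring, Finset.sum_range_succ]
    rw [e]
    have h1 := term_bound h1 h0 n
    have h2 : qs τ (n + 4) + t τ (n + 4) / (((n + 4 : ℕ) : ℂ) + 1) - qs τ 4 =
        (qs τ (n + 4) - qs τ 4) + t τ (n + 4) / (((n + 4 : ℕ) : ℂ) + 1) := by ring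
    rw [h2]
    refine (norm_add_le _ _).trans ?_
    refine (add_le_add ih h1).trans (le_of_eq ?_)
    push_cast
    ring

theorem summable_q {τ : ℝ} (h1 : τ ≤ 1 / 10) (h0 : 0 < τ) :
    Summable (fun m : ℕ => t τ m / ((m : ℂ) + 1)) := by
  rw [← summable_nat_add_iff 4]
  apply Summable.of_norm_bounded (g := fun n : ℕ => 1 / ((n + 1 : ℕ) : ℝ) ^ 2)
  · exact (summable_nat_add_iff 1).mpr (Real.summable_one_div_nat_pow.mpr one_lt_two)
  · intro n
    refine (term_bound h1 h0 n).trans ?_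
    have hn : (0:ℝ) ≤ n := Nat.cast_nonneg n
    have e3 : 1 / ((n + 4 : ℝ)) - 1 / ((n + 5 : ℝ)) = 1 / ((n + 4) * (n + 5)) := by
      field_simp
      ring
    rw [e3]
    push_cast
    have h1 : 1 / (((n : ℝ) + 4) * (n + 5)) ≤ 1 / ((n : ℝ) + 1) ^ 2 := by
      apply one_div_le_one_div_of_le (by positivity)
      nlinarith
    have h2 : 0 ≤ 1 / (((n : ℝ) + 4) * (n + 5)) := by positivity
    nlinarith

theorem t_bound {τ : ℝ} (h1 : τ ≤ 1 / 10) (h0 : 0 < τ) : ∃ C : ℝ, ∀ m, ‖t τ m‖ ≤ C := by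
  refine ⟨‖t τ 0‖ + ‖t τ 1‖ + ‖t τ 2‖ + ‖t τ 3‖ + 1, ?_⟩
  intro m
  have k0 := norm_nonneg (t τ 0)
  have k1 := norm_nonneg (t τ 1)
  have k2 := norm_nonneg (t τ 2)
  have k3 := norm_nonneg (t τ 3)
  rcases Nat.lt_or_ge m 4 with h | h
  · interval_cases m <;> linarith
  · have h4 := X_bound h1 h0 m h
    unfold X at h4
    rw [norm_mul, norm_natCast] at h4
    have h5 : (4:ℝ) ≤ m := by exact_mod_cast h
    nlinarith [norm_nonneg (t τ m)]

theorem exists_limit {τ : ℝ} (h1 : τ ≤ 1 / 10) (h0 : 0 < τ) :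
    ∃ l : ℂ, Tendsto (fun M => ∑ m ∈ Finset.range M, t τ m) atTop (𝓝 l) ∧
    7 / 10 / τ ≤ ‖l‖ := by
  obtain ⟨κ, hκ⟩ : ∃ κ, κ = ((τ : ℂ) ^ 2 - (1 + gam τ) * (1 + τ * I) : ℂ) := ⟨_, rfl⟩
  obtain ⟨q, hq⟩ := summable_q h1 h0
  have hq' : Tendsto (qs τ) atTop (𝓝 q) := hq.tendsto_sum_nat
  have hτ : (τ : ℂ) ≠ 0 := by exact_mod_cast h0.ne'
  have hT0 : 0 < τ ^ 2 := by positivity
  have hT1 : τ ^ 2 ≤ 1 / 100 := by nlinarith
  refine ⟨((τ : ℂ) ^ 2)⁻¹ * (κ * q), ?_, ?_⟩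
  · have h1' : (fun M => ∑ m ∈ Finset.range M, t τ m) =
        fun M => ((τ : ℂ) ^ 2)⁻¹ * (κ * qs τ M - X τ M) := by
      funext M
      rw [telescope τ M, ← hκ]
      unfold qs
      field_simp
      ring
    rw [h1']
    have h2 := ((hq'.const_mul κ).sub (X_tendsto h1 h0)).const_mul ((τ : ℂ) ^ 2)⁻¹
    rw [sub_zero] at h2
    exact h2
  · have hkn : 197 / 100 ≤ ‖κ‖ := by
      have hre : κ.re = -(2 - 3 * τ ^ 2) := by
        rw [hκ]
        unfold gam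
        simp [← ofReal_pow]
        ring
      have := Complex.abs_re_le_norm κ
      rw [hre, abs_neg, abs_of_pos (by linarith)] at this
      linarith
    have hq4n : 5 / 6 * τ ≤ ‖qs τ 4‖ := by
      obtain ⟨a1, a2, a3⟩ := t_four_terms τ
      have him : (qs τ 4).im = (t τ 1).im / 2 + (t τ 2).im / 3 + (t τ 3).im / 4 := by
        unfold qs
        rw [Finset.sum_range_succ, Finset.sum_range_succ, Finset.sum_range_succ,
          Finset.sum_range_one, t_zero]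
        have e1 : (((1 : ℕ) : ℂ) + 1) = ((2 : ℝ) : ℂ) := by norm_num
        have e2 : (((2 : ℕ) : ℂ) + 1) = ((3 : ℝ) : ℂ) := by norm_num
        have e3 : (((3 : ℕ) : ℂ) + 1) = ((4 : ℝ) : ℂ) := by norm_num
        rw [e1, e2, e3, add_im, add_im, add_im, div_ofReal_im, div_ofReal_im, div_ofReal_im]
        simp
      have := Complex.abs_im_le_norm (qs τ 4)
      refine le_trans ?_ this
      rw [him, a1, a2, a3, ← abs_neg]
      refine le_trans ?_ (le_abs_self _)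
      have h3 : 0 < τ ^ 3 := by positivity
      have h5 : τ ^ 5 ≤ τ ^ 3 * (1 / 100) := by
        have : τ ^ 5 = τ ^ 3 * τ ^ 2 := by ring
        rw [this]; gcongr
      have h7 : τ ^ 7 ≤ τ ^ 3 * (1 / 100) := by
        have : τ ^ 7 = τ ^ 3 * (τ ^ 2 * τ ^ 2) := by ring
        rw [this]
        gcongr
        nlinarith
      have h9 : 0 < τ ^ 9 := by positivity
      linarith
    have htail : ‖q - qs τ 4‖ ≤ 43 / 100 * τ := by
      have h1' : Tendsto (fun n => ‖qs τ (n + 4) - qs τ 4‖) atTop (𝓝 ‖q - qs τ 4‖) :=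
        ((hq'.comp (tendsto_add_atTop_nat 4)).sub_const (qs τ 4)).norm
      apply le_of_tendsto h1'
      filter_upwards with n
      refine (qs_bound h1 h0 n).trans ?_
      have hn : (0:ℝ) ≤ n := Nat.cast_nonneg n
      have : 0 ≤ 1 / ((n + 4 : ℝ)) := by positivity
      nlinarith
    have hqn : 4 / 10 * τ ≤ ‖q‖ := by
      have h1 : ‖qs τ 4‖ ≤ ‖q‖ + ‖q - qs τ 4‖ := by
        have := norm_sub_le q (q - qs τ 4)
        rw [sub_sub_cancel] at this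
        exact this
      linarith
    rw [norm_mul, norm_mul, norm_inv, norm_pow, Complex.norm_real, Real.norm_of_nonneg h0.le]
    have h2 : (197 / 100) * (4 / 10 * τ) ≤ ‖κ‖ * ‖q‖ :=
      mul_le_mul hkn hqn (by positivity) (norm_nonneg _)
    have h3 : 7 / 10 / τ = (τ ^ 2)⁻¹ * (7 / 10 * τ) := by
      field_simp
    rw [h3]
    refine mul_le_mul_of_nonneg_left ?_ (by positivity)
    linarith

/-- there is a point `r` of `(0,1)` where the pairing is as large as we like -/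
theorem exists_r (K : ℝ) : ∃ τ : ℝ, 0 < τ ∧ τ ≤ 1 / 10 ∧
    ∃ r : ℝ, 0 < r ∧ r < 1 ∧ K < ‖(∑' n : ℕ, t τ n * (r : ℂ) ^ n) - 1‖ := by
  set K' : ℝ := max K 1 with hK'
  have hK1 : 1 ≤ K' := le_max_right _ _
  set τ : ℝ := 1 / (10 * K') with hτ
  have h0 : 0 < τ := by positivity
  have h1 : τ ≤ 1 / 10 := by
    rw [hτ]
    apply one_div_le_one_div_of_le (by norm_num)
    linarith
  refine ⟨τ, h0, h1, ?_⟩
  obtain ⟨l, hl, hl5⟩ := exists_limit h1 h0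
  have hl6 : K < ‖l - 1‖ := by
    have e : 7 / 10 / τ = 7 * K' := by
      rw [hτ]
      field_simp
    rw [e] at hl5
    have := norm_sub_norm_le l 1
    rw [norm_one] at this
    have : K ≤ K' := le_max_left _ _
    linarith
  have h1 := Complex.tendsto_tsum_powerSeries_nhdsWithin_lt hl
  rw [tendsto_map'_iff] at h1
  have h2 : Tendsto (fun r : ℝ => ‖(∑' n : ℕ, t τ n * (r : ℂ) ^ n) - 1‖) (𝓝[<] 1) (𝓝 ‖l - 1‖) :=
    (h1.sub_const 1).norm
  have h3 := h2.eventually (lt_mem_nhds hl6)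
  have h4 : ∀ᶠ r : ℝ in 𝓝[<] 1, r < 1 := eventually_mem_nhdsWithin
  have h5 : ∀ᶠ r : ℝ in 𝓝[<] 1, 0 < r := by
    apply mem_nhdsWithin_of_mem_nhds
    exact lt_mem_nhds zero_lt_one
  obtain ⟨r, hr1, hr2, hr3⟩ := (h3.and (h4.and h5)).exists
  exact ⟨r, hr3, hr2, hr1⟩

/-! ### the neighbourhood function -/

theorem norm_P_small {τ : ℝ} (h1 : τ ≤ 1 / 10) (h0 : 0 < τ) {z : ℂ}
    (hz : z ∈ Metric.ball (0:ℂ) 1) : ‖P (bb τ + 1) z‖ ≤ 119 / 100 := by
  unfold P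
  rw [norm_exp]
  have hre : (-(bb τ + 1) * log (1 - z)).re = -(arg (1 - z)) * τ := by
    unfold bb
    simp [log_im]
    ring
  rw [hre]
  have harg := abs_arg_lt_pi_div_two_iff.mpr (Or.inl (one_sub_re hz))
  have h1 : -(arg (1 - z)) * τ ≤ 79 / 500 := by
    have := (abs_lt.mp harg).1
    have := Real.pi_lt_d2
    nlinarith
  calc Real.exp (-(arg (1 - z)) * τ) ≤ Real.exp (79 / 500) := Real.exp_le_exp.mpr h1
    _ ≤ 119 / 100 := by
      have h := Real.exp_bound_div_one_sub_of_interval (x := 79 / 500) (by norm_num) (by norm_num)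
      refine h.trans ?_
      norm_num

theorem P_b (τ : ℝ) {z : ℂ} (hz : z ∈ Metric.ball (0:ℂ) 1) :
    P (bb τ) z = (1 - z) * P (bb τ + 1) z := by
  have h := P_add (bb τ) 1 z
  rw [P_one hz] at h
  rw [h]
  have := one_sub_ne hz
  field_simp

theorem norm_b {τ : ℝ} (h1 : τ ≤ 1 / 10) (h0 : 0 < τ) : ‖bb τ‖ ≤ 1006 / 1000 := by
  have h : ‖bb τ‖ ^ 2 ≤ (1006 / 1000) ^ 2 := by
    unfold bb
    rw [← normSq_eq_norm_sq, normSq_apply]
    simp
    nlinarith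
  exact le_of_sq_le_sq h (by norm_num)

theorem norm_b2 {τ : ℝ} (h1 : τ ≤ 1 / 10) (h0 : 0 < τ) : ‖bb τ - 2‖ ≤ 3003 / 1000 := by
  have h : ‖bb τ - 2‖ ^ 2 ≤ (3003 / 1000) ^ 2 := by
    unfold bb
    rw [← normSq_eq_norm_sq, normSq_apply]
    simp
    nlinarith
  exact le_of_sq_le_sq h (by norm_num)

/-- the function `D(z) = z (P_b(z) - 1)` -/
noncomputable def DD (τ : ℝ) (z : ℂ) : ℂ := z * (P (bb τ) z - 1)

theorem DD_deriv (τ : ℝ) {z : ℂ} (hz : z ∈ Metric.ball (0:ℂ) 1) :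
    HasDerivAt (DD τ) ((P (bb τ) z - 1) + z * (bb τ * P (bb τ + 1) z)) z := by
  have h := (hasDerivAt_id z).fun_mul ((P_deriv (bb τ) hz).sub_const 1)
  exact h.congr_deriv (by simp)

theorem DD_bound {τ : ℝ} (h1 : τ ≤ 1 / 10) (h0 : 0 < τ) {z : ℂ} (hz : z ∈ Metric.ball (0:ℂ) 1) :
    ‖((P (bb τ) z - 1) + z * (bb τ * P (bb τ + 1) z)) - (P (bb τ) z - 1)‖ +
    ‖((P (bb τ) z - 1) + z * (bb τ * P (bb τ + 1) z)) + (P (bb τ) z - 1)‖ ≤ 10 := by
  have e1 : ((P (bb τ) z - 1) + z * (bb τ * P (bb τ + 1) z)) - (P (bb τ) z - 1) =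
      z * (bb τ * P (bb τ + 1) z) := by ring
  have e2 : ((P (bb τ) z - 1) + z * (bb τ * P (bb τ + 1) z)) + (P (bb τ) z - 1) =
      P (bb τ + 1) z * (2 + (bb τ - 2) * z) - 2 := by
    rw [P_b τ hz]
    ring
  rw [e1, e2]
  have hz1 : ‖z‖ < 1 := by simpa using hz
  have hP := norm_P_small h1 h0 hz
  have hPn := norm_nonneg (P (bb τ + 1) z)
  have n1 : ‖z * (bb τ * P (bb τ + 1) z)‖ ≤ 1006 / 1000 * (119 / 100) := by
    rw [norm_mul, norm_mul]
    have h1 : ‖bb τ‖ * ‖P (bb τ + 1) z‖ ≤ 1006 / 1000 * (119 / 100) :=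
      mul_le_mul (norm_b h1 h0) hP hPn (by norm_num)
    have h2 : 0 ≤ ‖bb τ‖ * ‖P (bb τ + 1) z‖ := by positivity
    nlinarith [norm_nonneg z]
  have n2 : ‖P (bb τ + 1) z * (2 + (bb τ - 2) * z) - 2‖ ≤
      119 / 100 * (5003 / 1000) + 2 := by
    have h1 : ‖2 + (bb τ - 2) * z‖ ≤ 5003 / 1000 := by
      have a1 := norm_add_le (2 : ℂ) ((bb τ - 2) * z)
      have a2 : ‖(2:ℂ)‖ = 2 := by simp
      have a3 : ‖(bb τ - 2) * z‖ ≤ 3003 / 1000 := by
        rw [norm_mul]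
        have := norm_b2 h1 h0
        nlinarith [norm_nonneg (bb τ - 2), norm_nonneg z]
      linarith
    have h2 : ‖P (bb τ + 1) z * (2 + (bb τ - 2) * z)‖ ≤ 119 / 100 * (5003 / 1000) := by
      rw [norm_mul]
      exact mul_le_mul hP h1 (norm_nonneg _) (by norm_num)
    have h3 := norm_sub_le (P (bb τ + 1) z * (2 + (bb τ - 2) * z)) 2
    have a2 : ‖(2:ℂ)‖ = 2 := by simp
    linarith
  linarith

theorem norm_P_neg {τ : ℝ} (h1 : τ ≤ 1 / 10) (h0 : 0 < τ) {s : ℝ} (hs : 0 ≤ s) :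
    ‖P (1 + gam τ) (-(s : ℂ))‖ ≤ 1 := by
  unfold P
  rw [norm_exp, Real.exp_le_one_iff]
  have e : (1 : ℂ) - -(s : ℂ) = ((1 + s : ℝ) : ℂ) := by push_cast; ring
  rw [e, ← ofReal_log (by linarith), mul_comm, re_ofReal_mul]
  have e2 : (-(1 + gam τ)).re = -(2 - τ ^ 2) := by
    unfold gam
    simp [← ofReal_pow]
    ring
  rw [e2]
  have h2 : 0 ≤ Real.log (1 + s) := Real.log_nonneg (by linarith)
  have h3 : τ ^ 2 ≤ 1 := by nlinarith
  nlinarith

end Pool.Agent.X104.Spiral
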