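import Pool.Agent.H779R2.An.MainA
import Pool.Agent.H779R2.An.AC
import Pool.Agent.H576R3.CF.Main
import Pool.Agent.H147R2.RI.JF

/-!
Uniformly quasiconformal Anosov diffeomorphisms with an invariant complex structure: transitivity
(`H779R2.An.main_resultA`) and the classification under recurrence (`H576R3.CF.main_qc`) combined.
-/

set_option autoImplicit false

open scoped Manifold ContDiff Topology Bundle
open Set Filter Bundle

namespace Pool.Agent.X104.AnosovQC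

open Pool.Agent.H721R2 Pool.Agent.H789R2.AN Pool.Agent.H779R2.An Pool.Agent.H779R2.To
  Pool.Agent.H779R2.Nu Pool.Agent.H147R2.RI Pool.Agent.H576R3.CF

/-- a space of dimension one carries no complex structure -/
theorem rank_ne_one {E : Type*} [AddCommGroup E] [Module ℝ E] (V : Submodule ℝ E) (J : E →ₗ[ℝ] E)
    (hm : ∀ v ∈ V, J v ∈ V) (hsq : ∀ v ∈ V, J (J v) = -v) : Module.finrank ℝ V ≠ 1 := by
  intro h1
  set j : V →ₗ[ℝ] V := J.restrict hm with hj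
  have h2 : j * j = -1 := by
    ext v
    change J (J v) = -(v : E)
    exact hsq v v.2
  have h3 : LinearMap.det j * LinearMap.det j = LinearMap.det (-1 : V →ₗ[ℝ] V) := by
    rw [← h2, map_mul]
  have h4 : LinearMap.det (-1 : V →ₗ[ℝ] V) = -1 := by
    have : (-1 : V →ₗ[ℝ] V) = (-1 : ℝ) • (LinearMap.id : V →ₗ[ℝ] V) := by
      ext v; simp
    rw [this, LinearMap.det_smul, h1, LinearMap.det_id]
    norm_num
  rw [h4] at h3
  nlinarith [mul_self_nonneg (LinearMap.det j)]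

theorem main (E : Type*) [NormedAddCommGroup E] [NormedSpace ℝ E] [FiniteDimensional ℝ E]
    (M : Type*) [TopologicalSpace M] [T2Space M] [CompactSpace M] [ConnectedSpace M]
    [ChartedSpace E M] [IsManifold 𝓘(ℝ, E) ∞ M] (f : Diffeomorph 𝓘(ℝ, E) 𝓘(ℝ, E) M M 1)
    (hf2 : ContMDiff 𝓘(ℝ, E) 𝓘(ℝ, E) 2 f) (hf2' : ContMDiff 𝓘(ℝ, E) 𝓘(ℝ, E) 2 f.symm)
    (Es Eu : ∀ x : M, Submodule ℝ (TangentSpace 𝓘(ℝ, E) x)) (hA : IsAnosov f Es Eu)
    (N : TangentBundle 𝓘(ℝ, E) M → ℝ) (hN : IsTangentNorm N)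
    (hqs : UniformlyQC f N Es) (hqu : UniformlyQC f N Eu) (ds du : ℕ) (hds1 : 1 ≤ ds)
    (hdu1 : 1 ≤ du) (hds : ∀ x, Module.finrank ℝ (Es x) = ds)
    (hdu : ∀ x, Module.finrank ℝ (Eu x) = du)
    (hJ : (du ≤ ds ∧ ∃ J, InvComplexOn f Eu J) ∨ (ds ≤ du ∧ ∃ J, InvComplexOn f Es J) ∨
      ∃ J : ∀ x : M, TangentSpace 𝓘(ℝ, E) x →ₗ[ℝ] TangentSpace 𝓘(ℝ, E) x, PreservesAC f J) :
    InfraToral f ∧ ∃ q : E → M, IsCoveringMap q ∧ Function.Surjective q := by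
  have hJ2 : (du ≤ ds ∧ ∃ J, InvComplexOn f Eu J) ∨ (ds ≤ du ∧ ∃ J, InvComplexOn f Es J) := by
    rcases hJ with h | h | ⟨J, h⟩
    · exact Or.inl h
    · exact Or.inr h
    · obtain ⟨h1, h2⟩ := h.invComplexOn hA
      rcases le_total du ds with hle | hle
      · exact Or.inl ⟨hle, J, h2⟩
      · exact Or.inr ⟨hle, J, h1⟩
  have htr : TopTransitive f :=
    main_resultA E M f hf2 hf2' Es Eu hA N hN hqs hqu ds du hds1 hdu1 hds hdu hJ2
  obtain ⟨x₀⟩ : Nonempty M := inferInstance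
  have h2 : 2 ≤ ds ∧ 2 ≤ du := by
    rcases hJ2 with ⟨hle, J, h⟩ | ⟨hle, J, h⟩
    · have h3 := rank_ne_one (Eu x₀) (J x₀) (h.mem x₀) (h.sq x₀)
      have h4 : Module.finrank ℝ (Eu x₀) = du := hdu x₀
      omega
    · have h3 := rank_ne_one (Es x₀) (J x₀) (h.mem x₀) (h.sq x₀)
      have h4 : Module.finrank ℝ (Es x₀) = ds := hds x₀
      omega
  have hnw : ∀ U : Set M, IsOpen U → U.Nonempty → ∃ m : ℕ, 1 ≤ m ∧ (f^[m] '' U ∩ U).Nonempty := by
    intro U hU hUn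
    have hfU : IsOpen (f '' U) := f.toHomeomorph.isOpenMap U hU
    obtain ⟨n, _, ⟨_, ⟨x, hx, rfl⟩, rfl⟩, hy⟩ := htr (f '' U) U hfU (hUn.image f) hU hUn
    exact ⟨n + 1, by omega, f^[n] (f x), ⟨x, hx, by rw [Function.iterate_succ_apply]⟩, hy⟩
  exact main_qc E M f hf2 hf2' Es Eu hA N hN ds du h2.1 h2.2 hds hdu hnw (Or.inl hqu)

end Pool.Agent.X104.AnosovQC
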