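import Pool.Agent.W740.TC.Conv

/-!
Integer matrices of determinant one: vectors whose backward orbits tend to zero are contracted
exponentially by the inverse (no hyperbolicity).
-/

set_option autoImplicit false
set_option linter.unusedSectionVars false

open Filter Topology Set Metric unitInterval

namespace Pool.Agent.X104.TorZero

open Pool.Agent.W740.TC

section lin

variable {W : Type*} [NormedAddCommGroup W] [NormedSpace ℂ W] [FiniteDimensional ℂ W]

/-- a backward orbit tending to zero of an endomorphism without expanding eigenvalues vanishes -/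
theorem back_zero (T : Module.End ℂ W) (hT : ∀ ν : ℂ, T.HasEigenvalue ν → ‖ν‖ ≤ 1)
    (w : ℕ → W) (hw : ∀ n, T (w (n + 1)) = w n) (h0 : Tendsto w atTop (𝓝 0)) : w 0 = 0 := by
  let V : Submodule ℂ W :=
    { carrier := {x | ∃ w : ℕ → W, w 0 = x ∧ (∀ n, T (w (n + 1)) = w n) ∧ Tendsto w atTop (𝓝 0)}
      add_mem' := by
        rintro a b ⟨w, h1, h2, h3⟩ ⟨w', h1', h2', h3'⟩
        refine ⟨w + w', by simp [h1, h1'], fun n => by simp [h2, h2'], ?_⟩
        have := h3.add h3'
        rw [add_zero] at this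
        exact this
      zero_mem' := ⟨fun _ => 0, rfl, fun n => by simp, tendsto_const_nhds⟩
      smul_mem' := by
        rintro c a ⟨w, h1, h2, h3⟩
        refine ⟨c • w, by simp [h1], fun n => by simp [h2], ?_⟩
        have := h3.const_smul c
        rw [smul_zero] at this
        exact this }
  have hmap : ∀ x ∈ V, T x ∈ V := by
    rintro x ⟨w, h1, h2, h3⟩
    refine ⟨fun n => Nat.casesOn n (T x) w, rfl, fun n => ?_, ?_⟩
    · rcases n with _ | n
      · show T (w 0) = T x
        rw [h1]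
      · exact h2 n
    · refine (tendsto_add_atTop_iff_nat 1).mp ?_
      exact h3
  have hsh : ∀ (w : ℕ → W), (∀ n, T (w (n + 1)) = w n) → Tendsto w atTop (𝓝 0) → ∀ k, w k ∈ V := by
    intro w h2 h3 k
    refine ⟨fun n => w (k + n), by simp, fun n => h2 (k + n), ?_⟩
    have := (tendsto_add_atTop_iff_nat k).mpr h3
    refine this.congr fun n => ?_
    rw [add_comm]
  let T₀ : Module.End ℂ V := T.restrict hmap
  have hsurj : Function.Surjective T₀ := by
    rintro ⟨x, hx⟩
    obtain ⟨w, h1, h2, h3⟩ := hx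
    exact ⟨⟨w 1, hsh w h2 h3 1⟩, Subtype.ext ((h2 0).trans h1)⟩
  have hinj : Function.Injective T₀ := LinearMap.injective_iff_surjective.mpr hsurj
  have hbot : V = ⊥ := by
    by_contra hne
    have hnt : Nontrivial V := (Submodule.nontrivial_iff_ne_bot).mpr hne
    obtain ⟨μ, hμ⟩ := Module.End.exists_eigenvalue T₀
    obtain ⟨v, hv⟩ := hμ.exists_hasEigenvector
    have hv1 : T₀ v = μ • v := hv.apply_eq_smul
    have hv0 : (v : W) ≠ 0 := fun h => hv.2 (Subtype.ext h)
    have hμ1 : ‖μ‖ ≤ 1 := by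
      refine hT μ (Module.End.hasEigenvalue_of_hasEigenvector (x := (v : W)) ⟨?_, hv0⟩)
      rw [Module.End.mem_eigenspace_iff]
      exact congrArg (fun w : V => (w : W)) hv1
    obtain ⟨w, h1, h2, h3⟩ := v.2
    let w' : ℕ → V := fun n => ⟨w n, hsh w h2 h3 n⟩
    have key : ∀ n, μ ^ n • w' n = v := by
      intro n
      induction n with
      | zero =>
        rw [pow_zero, one_smul]
        exact Subtype.ext h1
      | succ n ih =>
        apply hinj
        have e1 : T₀ (w' (n + 1)) = w' n := Subtype.ext (h2 n)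
        rw [map_smul, e1, hv1, ← ih, smul_smul, pow_succ']
    have h4 : ∀ n, ‖(v : W)‖ ≤ ‖w n‖ := by
      intro n
      have e1 : (v : W) = μ ^ n • w n := by
        have := congrArg (fun w : V => (w : W)) (key n)
        exact this.symm
      rw [e1, norm_smul, norm_pow]
      exact mul_le_of_le_one_left (norm_nonneg _) (pow_le_one₀ (norm_nonneg _) hμ1)
    have h5 : Tendsto (fun n => ‖w n‖) atTop (𝓝 0) := by
      have := h3.norm
      rwa [norm_zero] at this
    exact hv0 (norm_le_zero_iff.mp (ge_of_tendsto' h5 h4))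
  have h6 : w 0 ∈ V := hsh w hw h0 0
  rw [hbot, Submodule.mem_bot] at h6
  exact h6

end lin

/-- vectors whose backward orbit tends to zero are contracted by the inverse -/
theorem zero_contr {m : ℕ} (A A' : Matrix (Fin m) (Fin m) ℤ) (hAA : A * A' = 1) :
    ∃ C l : ℝ, 1 ≤ C ∧ 0 < l ∧ l < 1 ∧ ∀ v : Fin m → ℝ,
      Tendsto (fun n => (am A')^[n] v) atTop (𝓝 0) →
        ∀ n, ‖(am A')^[n] v‖ ≤ C * l ^ n * ‖v‖ := by
  set T := cx A with hT
  set T' := cx A' with hT'
  have hTT : ∀ w, T (T' w) = w := by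
    intro w
    show Matrix.toLin' (A.map (Int.cast : ℤ → ℂ)) (Matrix.toLin' (A'.map (Int.cast : ℤ → ℂ)) w) = w
    rw [← LinearMap.comp_apply, ← Matrix.toLin'_mul]
    have h1 : A.map (Int.cast : ℤ → ℂ) * A'.map (Int.cast : ℤ → ℂ) = 1 := by
      have h2 := congrArg (fun B : Matrix (Fin m) (Fin m) ℤ => B.map (Int.castRingHom ℂ)) hAA
      simp only [Matrix.map_mul] at h2
      rw [Matrix.map_one _ (map_zero _) (map_one _)] at h2
      exact h2
    rw [h1, Matrix.toLin'_one]
    rfl
  have hTpow : ∀ (n : ℕ) (w : Fin m → ℂ), (T ^ n) ((T' ^ n) w) = w := by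
    intro n
    induction n with
    | zero => intro w; rfl
    | succ n ih =>
      intro w
      rw [pow_succ, pow_succ' T']
      show (T ^ n) (T (T' ((T' ^ n) w))) = w
      rw [hTT, ih]
  have hinc : ∀ (n : ℕ) (v : Fin m → ℝ), (T' ^ n) (inc m v) = inc m ((am A')^[n] v) := by
    intro n v
    induction n with
    | zero => rfl
    | succ n ih =>
      rw [pow_succ', Function.iterate_succ_apply']
      show T' ((T' ^ n) (inc m v)) = _
      rw [ih]
      exact cx_inc A' _
  obtain ⟨C₁, l₁, hl₁, hl₁', h1⟩ := Tu_exp T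
  have hc := W_compl T
  have hbij : Function.Bijective T := by
    have hs : Function.Surjective T := fun w => ⟨T' w, hTT w⟩
    exact ⟨LinearMap.injective_iff_surjective.mpr hs, hs⟩
  have hT'T : ∀ w, T' (T w) = w := fun w => hbij.1 (hTT _)
  -- invariance under T'
  have hinv : ∀ (S : Submodule ℂ (Fin m → ℂ)), (∀ v ∈ S, T v ∈ S) → ∀ v ∈ S, T' v ∈ S := by
    intro S hS v hv
    have h3 : Function.Injective (T.restrict hS) := by
      intro a b hab
      apply Subtype.ext
      apply hbij.1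
      have := congrArg (fun w : S => (w : Fin m → ℂ)) hab
      exact this
    obtain ⟨w, hw⟩ := LinearMap.injective_iff_surjective.mp h3 ⟨v, hv⟩
    have h4 : T (w : Fin m → ℂ) = v := congrArg (fun w : S => (w : Fin m → ℂ)) hw
    rw [← h4, hT'T]
    exact w.2
  have hinvp : ∀ (S : Submodule ℂ (Fin m → ℂ)), (∀ v ∈ S, T v ∈ S) → ∀ (n : ℕ), ∀ v ∈ S,
      (T' ^ n) v ∈ S := by
    intro S hS n
    induction n with
    | zero => intro v hv; exact hv
    | succ n ih =>
      intro v hv
      rw [pow_succ']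
      exact hinv S hS _ (ih v hv)
  have hTu : ∀ (n : ℕ) (v : Wu T), (((Tu T) ^ n) v : Fin m → ℂ) = (T ^ n) v := by
    intro n
    induction n with
    | zero => intro v; rfl
    | succ n ih =>
      intro v
      rw [pow_succ', pow_succ' T]
      show T (((Tu T) ^ n) v : Fin m → ℂ) = T ((T ^ n) v)
      rw [ih]
  have key : ∀ v : Fin m → ℝ, Tendsto (fun n => (am A')^[n] v) atTop (𝓝 0) →
      inc m v ∈ Wu T := by
    intro v hK
    set u := ((Wu T).projectionOnto (Wc T) hc) (inc m v) with hu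
    set c := ((Wc T).projectionOnto (Wu T) hc.symm) (inc m v) with hcdef
    have hsum : inc m v = (u : Fin m → ℂ) + (c : Fin m → ℂ) :=
      (Submodule.projection_add_projection_eq_self hc (inc m v)).symm
    -- the projection of T'^n v
    have hproj : ∀ n, ((Wc T).projectionOnto (Wu T) hc.symm) ((T' ^ n) (inc m v)) =
        ⟨(T' ^ n) c, hinvp (Wc T) (Wc_map T) n _ c.2⟩ := by
      intro n
      rw [hsum, map_add, map_add]
      have e1 : ((Wc T).projectionOnto (Wu T) hc.symm) ((T' ^ n) (u : Fin m → ℂ)) = 0 := by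
        rw [Submodule.projectionOnto_apply_eq_zero_iff]
        exact hinvp (Wu T) (Wu_map T) n _ u.2
      have e2 : ((Wc T).projectionOnto (Wu T) hc.symm) ((T' ^ n) (c : Fin m → ℂ)) =
          ⟨(T' ^ n) c, hinvp (Wc T) (Wc_map T) n _ c.2⟩ :=
        Submodule.projectionOnto_apply_left hc.symm ⟨(T' ^ n) c, hinvp (Wc T) (Wc_map T) n _ c.2⟩
      rw [e1, e2, zero_add]
    have hpc : Continuous ((Wc T).projectionOnto (Wu T) hc.symm) :=
      LinearMap.continuous_of_finiteDimensional _
    have hincc : Continuous (inc m) := by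
      have : inc m = fun (v : Fin m → ℝ) (i : Fin m) => ((v i : ℝ) : ℂ) := rfl
      rw [this]
      fun_prop
    have hlim : Tendsto (fun n => ((Wc T).projectionOnto (Wu T) hc.symm) ((T' ^ n) (inc m v)))
        atTop (𝓝 0) := by
      have e1 : Tendsto (fun n => ((Wc T).projectionOnto (Wu T) hc.symm)
          (inc m ((am A')^[n] v))) atTop (𝓝 (((Wc T).projectionOnto (Wu T) hc.symm) (inc m 0))) :=
        ((hpc.comp hincc).tendsto 0).comp hK
      have e2 : inc m (0 : Fin m → ℝ) = 0 := by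
        funext i
        show (((0 : Fin m → ℝ) i : ℝ) : ℂ) = 0
        simp
      rw [e2, map_zero] at e1
      refine e1.congr fun n => ?_
      rw [hinc]
    have h7 := back_zero (Tc T) (Tc_eig T)
      (fun n => ((Wc T).projectionOnto (Wu T) hc.symm) ((T' ^ n) (inc m v))) (fun n => by
        rw [hproj, hproj]
        apply Subtype.ext
        show T ((T' ^ (n + 1)) (c : Fin m → ℂ)) = (T' ^ n) (c : Fin m → ℂ)
        rw [pow_succ']
        exact hTT _) hlim
    have hc1 : c = 0 := h7
    rw [hsum, hc1]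
    show (u : Fin m → ℂ) + 0 ∈ Wu T
    rw [add_zero]
    exact u.2
  refine ⟨max C₁ 1, max l₁ (1 / 2), le_max_right _ _, lt_of_lt_of_le (by norm_num) (le_max_right _ _),
    max_lt hl₁' (by norm_num), fun v hv n => ?_⟩
  have e1 := h1 n ⟨(T' ^ n) (inc m v), hinvp (Wu T) (Wu_map T) n _ (key v hv)⟩
  have e2 : ‖((Tu T) ^ n) ⟨(T' ^ n) (inc m v), hinvp (Wu T) (Wu_map T) n _ (key v hv)⟩‖ = ‖v‖ := by
    have : ((((Tu T) ^ n) ⟨(T' ^ n) (inc m v), hinvp (Wu T) (Wu_map T) n _ (key v hv)⟩ : Wu T) :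
        Fin m → ℂ) = inc m v := by
      rw [hTu]
      exact hTpow n _
    show ‖((((Tu T) ^ n) ⟨(T' ^ n) (inc m v), hinvp (Wu T) (Wu_map T) n _ (key v hv)⟩ : Wu T) :
        Fin m → ℂ)‖ = ‖v‖
    rw [this, inc_norm]
  have e3 : ‖(⟨(T' ^ n) (inc m v), hinvp (Wu T) (Wu_map T) n _ (key v hv)⟩ : Wu T)‖ =
      ‖(am A')^[n] v‖ := by
    show ‖(T' ^ n) (inc m v)‖ = _
    rw [hinc, inc_norm]
  rw [e2, e3] at e1
  refine e1.trans (mul_le_mul_of_nonneg_right ?_ (norm_nonneg _))
  have h5 : 0 ≤ l₁ ^ n := pow_nonneg hl₁ n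
  have h6 : l₁ ^ n ≤ (max l₁ (1 / 2)) ^ n := pow_le_pow_left₀ hl₁ (le_max_left _ _) n
  calc C₁ * l₁ ^ n ≤ max C₁ 1 * l₁ ^ n := mul_le_mul_of_nonneg_right (le_max_left _ _) h5
    _ ≤ max C₁ 1 * (max l₁ (1 / 2)) ^ n :=
        mul_le_mul_of_nonneg_left h6 (zero_le_one.trans (le_max_right _ _))

end Pool.Agent.X104.TorZero
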