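import Pool.Agent.W740.TC.Final
import Pool.Agent.W740.TU.Fin
import Pool.Agent.W740.TU.Sym
import Pool.Agent.X104.TorZero

/-!
Semiconjugacies from Anosov diffeomorphisms to hyperbolic toral automorphisms of any dimension that
are injective on the local unstable sets.
-/

set_option autoImplicit false
set_option linter.unusedSectionVars false

open Filter Topology Set Metric
open scoped Manifold ContDiff

namespace Pool.Agent.X104.TorFac

open Pool.Agent.H721R2 Pool.Agent.H789R2.AN Pool.Agent.H789R2.GP Pool.Agent.W740.TC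
  Pool.Agent.W740.TU
open Pool.Agent.H779R2.To (IsToral)
open Pool.Agent.X104.TorZero

section abs

open unitInterval

variable {X : Type*} [MetricSpace X] [CompactSpace X]

/-- small images of the whole backward orbits of unstable displacements come from small
displacements -/
theorem small_of_inj {Y : Type*} [MetricSpace Y] {g : X ≃ₜ X} {h : X → Y} (hc : Continuous h)
    (hi : ∃ ε > 0, ∀ x y, SR g.symm ε x y → h x = h y → x = y) {ε : ℝ} (hε : 0 < ε) :
    ∃ ρ > 0, ∀ x y, WS g.symm x y →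
      (∀ j : ℕ, dist (h (g.symm^[j] x)) (h (g.symm^[j] y)) ≤ ρ) → SR g.symm ε x y := by
  obtain ⟨ε₀, hε₀, hinj⟩ := hi
  set ε' := min ε ε₀ with hε'
  have hε'0 : 0 < ε' := lt_min hε hε₀
  set K : Set (X × X) := {p | SR g.symm ε' p.1 p.2} ∩ {p | ε' ≤ dist (g p.1) (g p.2)} with hK
  have hKc : IsCompact K := by
    refine IsClosed.isCompact ((isClosed_SR g.symm ε').inter (isClosed_le continuous_const ?_))
    exact (g.continuous.comp continuous_fst).dist (g.continuous.comp continuous_snd)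
  obtain ⟨m, hm, hmin⟩ : ∃ m > 0, ∀ p ∈ K, m ≤ dist (h p.1) (h p.2) := by
    rcases K.eq_empty_or_nonempty with h0 | h0
    · exact ⟨1, one_pos, fun p hp => by rw [h0] at hp; exact absurd hp (notMem_empty _)⟩
    · have hcont : ContinuousOn (fun p : X × X => dist (h p.1) (h p.2)) K :=
        (((hc.comp continuous_fst).dist (hc.comp continuous_snd))).continuousOn
      obtain ⟨p, hp, hp2⟩ := hKc.exists_isMinOn h0 hcont
      refine ⟨dist (h p.1) (h p.2), ?_, fun q hq => hp2 hq⟩
      rw [gt_iff_lt, dist_pos]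
      intro h0
      have h1 := hinj _ _ (hp.1.mono (min_le_right _ _)) h0
      have h2 : ε' ≤ dist (g p.1) (g p.2) := hp.2
      rw [h1, dist_self] at h2
      linarith
  refine ⟨m / 2, half_pos hm, fun x y hxy hlt => ?_⟩
  by_contra hcon
  have hcon' : ¬ SR g.symm ε' x y := fun h => hcon (h.mono (min_le_left _ _))
  have hex : ∃ N, SR g.symm ε' (g.symm^[N] x) (g.symm^[N] y) := hxy.level12 hε'0
  classical
  have hN := Nat.find_spec hex
  have hmin' := fun k (hk : k < Nat.find hex) => Nat.find_min hex hk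
  set N := Nat.find hex
  have hN0 : N ≠ 0 := by
    intro h0
    rw [h0] at hN
    exact hcon' hN
  obtain ⟨j, hj⟩ := Nat.exists_eq_succ_of_ne_zero hN0
  have h1 := hmin' j (by omega)
  have e1 : ∀ z : X, g (g.symm^[N] z) = g.symm^[j] z := fun z => by
    rw [hj, Nat.succ_eq_add_one, Function.iterate_succ_apply' g.symm, g.apply_symm_apply]
  have h2 : ε' ≤ dist (g (g.symm^[N] x)) (g (g.symm^[N] y)) := by
    by_contra h3
    push Not at h3
    apply h1
    intro i
    rcases i with _ | i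
    · rw [e1, e1] at h3
      exact h3.le
    · have := hN i
      rw [hj, Nat.succ_eq_add_one, ← Function.iterate_add_apply, ← Function.iterate_add_apply] at this
      rw [← Function.iterate_add_apply, ← Function.iterate_add_apply]
      rwa [show i + 1 + j = i + (j + 1) by omega]
  have h3 := hmin (g.symm^[N] x, g.symm^[N] y) ⟨hN, h2⟩
  simp only at h3
  have := hlt N
  linarith

/-- **Displacement.** A semiconjugacy to an affine automorphism of a torus which is injective on the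
local unstable sets displaces the unstable leaves polynomially properly. -/
theorem poly_of_semi (f : X ≃ₜ X) {m : ℕ}
    (A : Matrix (Fin m) (Fin m) ℤ) (h : X → (Fin m → AddCircle (1 : ℝ))) (hc : Continuous h)
    (hi : ∃ ε > 0, ∀ x y, SR f.symm ε x y → h x = h y → x = y)
    (hdet : IsUnit A.det) (b : Fin m → AddCircle (1 : ℝ))
    (hf : ∀ x i, h (f x) i = ∑ j, A i j • h x j + b i) :
    PolyDisp f.symm h := by
  have hinvf : ∀ x y i, h (f.symm x) i - h (f.symm y) i = ∑ j, A⁻¹ i j • (h x j - h y j) := by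
    intro x y i
    have h1 : ∀ j, h x j - h y j = ∑ k, A j k • (h (f.symm x) k - h (f.symm y) k) := by
      intro j
      have e1 := hf (f.symm x) j
      have e2 := hf (f.symm y) j
      rw [f.apply_symm_apply] at e1 e2
      rw [e1, e2, add_sub_add_right_eq_sub, ← Finset.sum_sub_distrib]
      exact Finset.sum_congr rfl fun k _ => (smul_sub _ _ _).symm
    have h2 : ∑ j, A⁻¹ i j • (h x j - h y j) =
        ∑ k, (∑ j, A⁻¹ i j * A j k) • (h (f.symm x) k - h (f.symm y) k) := by
      simp only [h1, Finset.smul_sum, Finset.sum_smul, smul_smul]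
      rw [Finset.sum_comm]
    rw [h2]
    have h3 : ∀ k, ∑ j, A⁻¹ i j * A j k = (1 : Matrix (Fin m) (Fin m) ℤ) i k := by
      intro k
      rw [← Matrix.nonsing_inv_mul A hdet, Matrix.mul_apply]
    simp only [h3]
    rw [Finset.sum_eq_single i]
    · rw [Matrix.one_apply_eq, one_smul]
    · intro k _ hk
      rw [Matrix.one_apply_ne (Ne.symm hk), zero_smul]
    · intro hi
      exact absurd (Finset.mem_univ i) hi
  -- the lifts of the backward iterates
  have hlift' : ∀ (n : ℕ) (v : Fin m → ℝ) (x y : X),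
      (∀ i, ((v i : ℝ) : AddCircle (1 : ℝ)) = h x i - h y i) →
      ∀ i, (((am A⁻¹)^[n] v i : ℝ) : AddCircle (1 : ℝ)) =
        h (f.symm^[n] x) i - h (f.symm^[n] y) i := by
    intro n
    induction n with
    | zero => intro v x y hv i; exact hv i
    | succ n ih =>
      intro v x y hv i
      rw [Function.iterate_succ_apply, Function.iterate_succ_apply, Function.iterate_succ_apply]
      refine ih (am A⁻¹ v) (f.symm x) (f.symm y) (fun i => ?_) i
      rw [coe_am, hinvf]
      simp_rw [hv]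
  have hlift : ∀ (v w : Fin m → ℝ) (x y : X),
      (∀ i, ((v i : ℝ) : AddCircle (1 : ℝ)) = h x i) → (∀ i, ((w i : ℝ) : AddCircle (1 : ℝ)) = h y i) →
      ∀ n i, (((am A⁻¹)^[n] (v - w) i : ℝ) : AddCircle (1 : ℝ)) =
        h (f.symm^[n] x) i - h (f.symm^[n] y) i := by
    intro v w x y hv hw n i
    refine hlift' n (v - w) x y (fun i => ?_) i
    rw [Pi.sub_apply, AddCircle.coe_sub, hv, hw]
  obtain ⟨C, l, hC, hl, hl', hcontr⟩ := zero_contr A A⁻¹ (Matrix.mul_nonsing_inv A hdet)
  intro 𝒰 h𝒰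
  -- a scale
  obtain ⟨δ, hδ, hδU⟩ : ∃ δ > 0, ∀ x y, WS f.symm x y →
      (∀ j : ℕ, dist (h (f.symm^[j] x)) (h (f.symm^[j] y)) ≤ δ) → (x, y) ∈ 𝒰 := by
    rw [nhdsSet_diagonal_eq_uniformity, Metric.mem_uniformity_dist] at h𝒰
    obtain ⟨ε, hε, h2⟩ := h𝒰
    obtain ⟨ρ, hρ, h3⟩ := small_of_inj (g := f) hc hi (half_pos hε)
    exact ⟨ρ, hρ, fun x y h4 h5 => h2 (lt_of_le_of_lt (h3 x y h4 h5 0) (half_lt_self hε))⟩
  set lam : ℝ := Real.log (1 / l) with hlam
  have hlam0 : 0 < lam := Real.log_pos ((one_lt_div hl).mpr hl')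
  refine ⟨1 / lam, Real.log (C / δ) / lam, fun γ θ hγ hθ n hn => ?_⟩
  set v : Fin m → ℝ := θ 1 - θ 0 with hv
  -- the backward orbit of `v` tends to zero
  have hbdd : Tendsto (fun n => (am A⁻¹)^[n] v) atTop (𝓝 0) := by
    rw [Metric.tendsto_atTop]
    intro ε hε
    have hcont : Continuous (fun p : X × X => ‖h p.1 - h p.2‖) := by
      fun_prop
    have h1 : {p : X × X | ‖h p.1 - h p.2‖ < min (1 / 4) ε} ∈ 𝓝ˢ (diagonal X) := by
      refine (isOpen_lt hcont continuous_const).mem_nhdsSet.mpr ?_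
      rintro ⟨a, b⟩ hab
      have hab' : a = b := hab
      subst hab'
      show ‖h a - h a‖ < min (1 / 4) ε
      rw [sub_self, norm_zero]
      exact lt_min (by norm_num) hε
    obtain ⟨n₀, hn₀⟩ := eventually_atTop.mp (hγ _ h1)
    refine ⟨n₀, fun n hn => ?_⟩
    rw [dist_zero_right, pi_norm_lt_iff hε]
    intro i
    have hco : ∀ t, ‖(((am A⁻¹)^[n] (θ t - θ 0) i : ℝ) : AddCircle (1 : ℝ))‖ < min (1 / 4) ε := by
      intro t
      rw [hlift (θ t) (θ 0) (γ t) (γ 0) (hθ t) (hθ 0)]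
      have h3 : ‖h (f.symm^[n] (γ 0)) - h (f.symm^[n] (γ t))‖ < min (1 / 4) ε := hn₀ n hn t
      rw [norm_sub_rev] at h3
      exact (norm_le_pi_norm (h (f.symm^[n] (γ t)) - h (f.symm^[n] (γ 0))) i).trans_lt h3
    have h4 : |(am A⁻¹)^[n] (θ 1 - θ 0) i| < 1 / 4 := by
      refine small_of_mod (fun t => (am A⁻¹)^[n] (θ t - θ 0) i) ?_ ?_
        (fun t => (hco t).trans_le (min_le_left _ _)) 1
      · have h2 : Continuous (fun t => θ t - θ 0) := θ.continuous.sub continuous_const
        exact (continuous_apply i).comp (((am_cont A⁻¹).iterate n).comp h2)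
      · show (am A⁻¹)^[n] (θ 0 - θ 0) i = 0
        rw [am_iter_sub, sub_self]
        rfl
    have h5 := (AddCircle.norm_coe_eq_abs_iff (p := (1 : ℝ)) (x := (am A⁻¹)^[n] (θ 1 - θ 0) i)
      one_ne_zero).mpr (by rw [abs_one]; linarith)
    rw [Real.norm_eq_abs, ← h5]
    exact (hco 1).trans_le (min_le_right _ _)
  -- `C lⁿ ‖v‖ < δ`
  have hv0 : 0 ≤ ‖v‖ := norm_nonneg v
  have hln : 0 < l ^ n := pow_pos hl n
  have h3 : (1 + ‖v‖) * (C / δ) ≤ (1 / l) ^ n := by
    have e1 : 0 < (1 + ‖v‖) * (C / δ) := by positivity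
    rw [← Real.log_le_log_iff e1 (by positivity), Real.log_pow,
      Real.log_mul (by positivity) (by positivity)]
    have e2 := hn
    rw [← hlam]
    have e3 : (1 / lam * Real.log (1 + ‖v‖) + Real.log (C / δ) / lam) * lam ≤ n * lam :=
      mul_le_mul_of_nonneg_right e2 hlam0.le
    have e4 : (1 / lam * Real.log (1 + ‖v‖) + Real.log (C / δ) / lam) * lam =
        Real.log (1 + ‖v‖) + Real.log (C / δ) := by
      field_simp
    linarith
  have h4 : C * l ^ n * (1 + ‖v‖) ≤ δ := by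
    rw [one_div, inv_pow] at h3
    have e1 : (1 + ‖v‖) * (C / δ) * l ^ n ≤ 1 := by
      calc (1 + ‖v‖) * (C / δ) * l ^ n ≤ (l ^ n)⁻¹ * l ^ n :=
            mul_le_mul_of_nonneg_right h3 hln.le
        _ = 1 := inv_mul_cancel₀ hln.ne'
    have e2 : C * l ^ n * (1 + ‖v‖) = (1 + ‖v‖) * (C / δ) * l ^ n * δ := by
      field_simp
    rw [e2]
    calc _ ≤ 1 * δ := mul_le_mul_of_nonneg_right e1 hδ.le
      _ = δ := one_mul δ
  have h5 : 0 < C * l ^ n := by positivity
  have h6 : C * l ^ n * ‖v‖ ≤ δ := by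
    refine le_trans ?_ h4
    exact mul_le_mul_of_nonneg_left (by linarith) h5.le
  -- the backward images of the end points are asymptotic
  have hws : WS f.symm (f.symm^[n] (γ 0)) (f.symm^[n] (γ 1)) := by
    rw [WS, Metric.tendsto_atTop]
    intro ε hε
    have h7 : {p : X × X | dist p.1 p.2 < ε} ∈ 𝓝ˢ (diagonal X) := by
      rw [nhdsSet_diagonal_eq_uniformity]
      exact Metric.dist_mem_uniformity hε
    obtain ⟨n₀, hn₀⟩ := eventually_atTop.mp (hγ _ h7)
    refine ⟨n₀, fun k hk => ?_⟩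
    rw [Real.dist_0_eq_abs, abs_of_nonneg dist_nonneg, ← Function.iterate_add_apply,
      ← Function.iterate_add_apply]
    exact hn₀ (k + n) (by omega) 1
  refine hδU _ _ hws fun j => ?_
  rw [← Function.iterate_add_apply, ← Function.iterate_add_apply, dist_eq_norm]
  have h2 : ‖h (f.symm^[j + n] (γ 0)) - h (f.symm^[j + n] (γ 1))‖ ≤ ‖(am A⁻¹)^[j + n] v‖ := by
    rw [pi_norm_le_iff_of_nonneg (norm_nonneg _)]
    intro i
    rw [Pi.sub_apply, norm_sub_rev, ← hlift (θ 1) (θ 0) (γ 1) (γ 0) (hθ 1) (hθ 0) (j + n) i]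
    exact (QuotientAddGroup.norm_mk_le_norm).trans (norm_le_pi_norm ((am A⁻¹)^[j + n] v) i)
  refine (h2.trans (hcontr v hbdd (j + n))).trans (le_trans ?_ h6)
  refine mul_le_mul_of_nonneg_right ?_ hv0
  refine mul_le_mul_of_nonneg_left ?_ (by linarith)
  exact pow_le_pow_of_le_one hl.le hl'.le (by omega)

end abs

section manifold

variable {E : Type*} [NormedAddCommGroup E] [NormedSpace ℝ E] [FiniteDimensional ℝ E]
  {M : Type*} [TopologicalSpace M] [T2Space M] [CompactSpace M] [ConnectedSpace M]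
  [ChartedSpace E M] [IsManifold 𝓘(ℝ, E) ∞ M]

/-- One foliation. -/
theorem man_semi (f : Diffeomorph 𝓘(ℝ, E) 𝓘(ℝ, E) M M 1)
    (Es Eu : ∀ x : M, Submodule ℝ (TangentSpace 𝓘(ℝ, E) x)) (hA : IsAnosov f Es Eu)
    {k : ℕ} (A : Matrix (Fin k) (Fin k) ℤ) (hdet : IsUnit A.det) (b : Fin k → AddCircle (1 : ℝ))
    (h : M → Fin k → AddCircle (1 : ℝ)) (hc : Continuous h)
    (hf : ∀ x i, h (f x) i = ∑ j, A i j • h x j + b i) (hinj : UnstInj f.symm h) :
    TopTransitive f ∧ IsToral f ∧
      (∃ q : E → M, IsCoveringMap q ∧ Function.Surjective q) ∧ Dense (Function.periodicPts f) := by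
  have hU : PolyDisp f.symm h := by
    obtain ⟨m, ee, hee, hemb, hinje⟩ :=
      exists_embedding_euclidean_of_compact (I := 𝓘(ℝ, E)) (M := M)
    let _ : MetricSpace M := hemb.isEmbedding.comapMetricSpace ee
    have hi := metric_inj (f := f.toHomeomorph) (g := f.toHomeomorph) le_rfl (fun x => rfl) hinj
    exact poly_of_semi f.toHomeomorph A h hc hi hdet b hf
  have hb : ∀ i, ∃ r : ℝ, (r : AddCircle (1 : ℝ)) = b i := fun i =>
    QuotientAddGroup.mk_surjective (b i)
  choose r hr using hb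
  refine man_poly f Es Eu hA h hc A (fun _ => r) continuous_const (fun x i => ?_) hU
  rw [hf x i, hr]

theorem inv_semi {k : ℕ} (A : Matrix (Fin k) (Fin k) ℤ) (hdet : IsUnit A.det) (f : M ≃ₜ M)
    (b : Fin k → AddCircle (1 : ℝ))
    (h : M → Fin k → AddCircle (1 : ℝ)) (hf : ∀ x i, h (f x) i = ∑ j, A i j • h x j + b i) :
    ∀ x i, h (f.symm x) i = ∑ j, A⁻¹ i j • h x j + -(∑ j, A⁻¹ i j • b j) := by
  intro x i
  have h1 : ∀ j, h x j - b j = ∑ k, A j k • h (f.symm x) k := by
    intro j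
    have := hf (f.symm x) j
    rw [f.apply_symm_apply] at this
    rw [this, add_sub_cancel_right]
  have h2 : ∑ j, A⁻¹ i j • (h x j - b j) = ∑ k, (∑ j, A⁻¹ i j * A j k) • h (f.symm x) k := by
    simp only [h1, Finset.smul_sum, Finset.sum_smul, smul_smul]
    rw [Finset.sum_comm]
  have h4 : ∑ j, A⁻¹ i j • (h x j - b j) = ∑ j, A⁻¹ i j • h x j + -(∑ j, A⁻¹ i j • b j) := by
    rw [← sub_eq_add_neg, ← Finset.sum_sub_distrib]
    exact Finset.sum_congr rfl fun k _ => smul_sub _ _ _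
  rw [← h4, h2]
  have h3 : ∀ k, ∑ j, A⁻¹ i j * A j k = (1 : Matrix (Fin _) (Fin _) ℤ) i k := by
    intro k
    rw [← Matrix.nonsing_inv_mul A hdet, Matrix.mul_apply]
  simp only [h3]
  rw [Finset.sum_eq_single i]
  · rw [Matrix.one_apply_eq, one_smul]
  · intro k _ hk
    rw [Matrix.one_apply_ne (Ne.symm hk), zero_smul]
  · intro hi
    exact absurd (Finset.mem_univ i) hi

/-- Either foliation. -/
theorem man_either_semi (f : Diffeomorph 𝓘(ℝ, E) 𝓘(ℝ, E) M M 1)
    (Es Eu : ∀ x : M, Submodule ℝ (TangentSpace 𝓘(ℝ, E) x)) (hA : IsAnosov f Es Eu)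
    {k : ℕ} (A : Matrix (Fin k) (Fin k) ℤ) (hdet : IsUnit A.det) (b : Fin k → AddCircle (1 : ℝ))
    (h : M → Fin k → AddCircle (1 : ℝ)) (hc : Continuous h)
    (hf : ∀ x i, h (f x) i = ∑ j, A i j • h x j + b i) (hinj : UnstInj f.symm h ∨ UnstInj f h) :
    TopTransitive f ∧ IsToral f ∧
      (∃ q : E → M, IsCoveringMap q ∧ Function.Surjective q) ∧ Dense (Function.periodicPts f) := by
  rcases hinj with hp | hp
  · exact man_semi f Es Eu hA A hdet b h hc hf hp
  · obtain ⟨h1, h2, h3, h4⟩ := man_semi f.symm Eu Es (anosov_symm f Es Eu hA) A⁻¹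
      (Matrix.isUnit_nonsing_inv_det A hdet) _ h hc
      (inv_semi A hdet f.toHomeomorph b h hf) hp
    refine ⟨transitive_symm f.toHomeomorph h1, IsToral.inv f.toHomeomorph h2, h3, ?_⟩
    refine h4.mono ?_
    rintro x ⟨n, hn, hx⟩
    refine ⟨n, hn, ?_⟩
    have h5 : f.symm^[n] x = x := hx
    have h6 : f^[n] (f.symm^[n] x) = x :=
      (Function.LeftInverse.iterate f.apply_symm_apply n) x
    rw [h5] at h6
    exact h6

end manifold

end Pool.Agent.X104.TorFac
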