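import Pool.Agent.X104.TorFac
import Pool.Agent.TH289.L.P3

/-!
Affine hyperbolic automorphisms of tori as abstract systems: local product structure, expansiveness
and quadrilaterals.
-/

set_option autoImplicit false
set_option linter.unusedSectionVars false

open Filter Topology Set Metric

namespace Pool.Agent.X104.TorSys

open Pool.Agent.W740.TC Pool.Agent.H721R2 Pool.Agent.H789R2.AN Pool.Agent.H789R2.GP
open Pool.Agent.TH289 Pool.Agent.TH289.K
open Pool.Agent.H779R2.To (HypMat)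

section split

variable {m : ℕ}

/-- the real part of a vector -/
noncomputable def rp (w : Fin m → ℂ) : Fin m → ℝ := fun i => (w i).re

theorem rp_norm (w : Fin m → ℂ) : ‖rp w‖ ≤ ‖w‖ := by
  rw [pi_norm_le_iff_of_nonneg (norm_nonneg _)]
  intro i
  exact (Complex.abs_re_le_norm (w i)).trans (norm_le_pi_norm w i)

theorem rp_cx (A : Matrix (Fin m) (Fin m) ℤ) (w : Fin m → ℂ) : rp (cx A w) = am A (rp w) := by
  funext i
  show ((Matrix.toLin' (A.map (Int.cast : ℤ → ℂ)) w) i).re = ∑ j, (A i j : ℝ) * (w j).re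
  rw [Matrix.toLin'_apply, Matrix.mulVec, dotProduct, Complex.re_sum]
  refine Finset.sum_congr rfl fun j _ => ?_
  rw [Matrix.map_apply]
  have : ((A i j : ℤ) : ℂ) = (((A i j : ℤ) : ℝ) : ℂ) := by push_cast; rfl
  rw [this, Complex.re_ofReal_mul]

theorem rp_cx_pow (A : Matrix (Fin m) (Fin m) ℤ) (n : ℕ) (w : Fin m → ℂ) :
    rp ((cx A ^ n) w) = (am A)^[n] (rp w) := by
  induction n with
  | zero => rfl
  | succ n ih =>
    rw [pow_succ', Function.iterate_succ_apply', ← ih]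
    exact rp_cx A _

/-- the hyperbolic splitting -/
theorem split (A A' : Matrix (Fin m) (Fin m) ℤ) (hAA : A * A' = 1) (hA : HypMat A) :
    ∃ K : ℝ, 0 < K ∧ ∀ v : Fin m → ℝ, ∃ a b : Fin m → ℝ, v = a + b ∧
      (∀ n, ‖(am A)^[n] a‖ ≤ K * ‖v‖) ∧ ∀ n, ‖(am A')^[n] b‖ ≤ K * ‖v‖ := by
  set T := cx A with hT
  set T' := cx A' with hT'
  have hTT : ∀ w, T (T' w) = w := by
    intro w
    show Matrix.toLin' (A.map (Int.cast : ℤ → ℂ)) (Matrix.toLin' (A'.map (Int.cast : ℤ → ℂ)) w) = w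
    rw [← LinearMap.comp_apply, ← Matrix.toLin'_mul]
    have h1 : A.map (Int.cast : ℤ → ℂ) * A'.map (Int.cast : ℤ → ℂ) = 1 := by
      have h2 := congrArg (fun B : Matrix (Fin m) (Fin m) ℤ => B.map (Int.castRingHom ℂ)) hAA
      simp only [Matrix.map_mul] at h2
      rw [Matrix.map_one _ (map_zero _) (map_one _)] at h2
      exact h2
    rw [h1, Matrix.toLin'_one]
    rfl
  have heig : ∀ ν : ℂ, T.HasEigenvalue ν → ‖ν‖ ≠ 1 := by
    intro ν hν h1
    rw [Module.End.hasEigenvalue_iff_isRoot_charpoly] at hν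
    apply hA ν h1
    have h2 : T.charpoly = (A.map (Int.castRingHom ℂ)).charpoly := Matrix.charpoly_toLin' _
    rwa [h2] at hν
  have hTpow : ∀ (n : ℕ) (w : Fin m → ℂ), (T ^ n) ((T' ^ n) w) = w := by
    intro n
    induction n with
    | zero => intro w; rfl
    | succ n ih =>
      intro w
      rw [pow_succ, pow_succ' T']
      show (T ^ n) (T (T' ((T' ^ n) w))) = w
      rw [hTT, ih]
  obtain ⟨C₁, l₁, hl₁, hl₁', h1⟩ := Tu_exp T
  obtain ⟨C₂, l₂, hC₂, hl₂, hl₂', h2⟩ := Tc_contr T heig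
  have hc := W_compl T
  have hbij : Function.Bijective T := by
    have hs : Function.Surjective T := fun w => ⟨T' w, hTT w⟩
    exact ⟨LinearMap.injective_iff_surjective.mpr hs, hs⟩
  have hT'T : ∀ w, T' (T w) = w := fun w => hbij.1 (hTT _)
  have hinv : ∀ (S : Submodule ℂ (Fin m → ℂ)), (∀ v ∈ S, T v ∈ S) → ∀ v ∈ S, T' v ∈ S := by
    intro S hS v hv
    have h3 : Function.Injective (T.restrict hS) := by
      intro a b hab
      apply Subtype.ext
      apply hbij.1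
      have := congrArg (fun w : S => (w : Fin m → ℂ)) hab
      exact this
    obtain ⟨w, hw⟩ := LinearMap.injective_iff_surjective.mp h3 ⟨v, hv⟩
    have h4 : T (w : Fin m → ℂ) = v := congrArg (fun w : S => (w : Fin m → ℂ)) hw
    rw [← h4, hT'T]
    exact w.2
  have hinvp : ∀ (S : Submodule ℂ (Fin m → ℂ)), (∀ v ∈ S, T v ∈ S) → ∀ (n : ℕ), ∀ v ∈ S,
      (T' ^ n) v ∈ S := by
    intro S hS n
    induction n with
    | zero => intro v hv; exact hv
    | succ n ih =>
      intro v hv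
      rw [pow_succ']
      exact hinv S hS _ (ih v hv)
  have hTu : ∀ (n : ℕ) (v : Wu T), (((Tu T) ^ n) v : Fin m → ℂ) = (T ^ n) v := by
    intro n
    induction n with
    | zero => intro v; rfl
    | succ n ih =>
      intro v
      rw [pow_succ', pow_succ' T]
      show T (((Tu T) ^ n) v : Fin m → ℂ) = T ((T ^ n) v)
      rw [ih]
  have hTc : ∀ (n : ℕ) (v : Wc T), (((Tc T) ^ n) v : Fin m → ℂ) = (T ^ n) v := by
    intro n
    induction n with
    | zero => intro v; rfl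
    | succ n ih =>
      intro v
      rw [pow_succ', pow_succ' T]
      show T (((Tc T) ^ n) v : Fin m → ℂ) = T ((T ^ n) v)
      rw [ih]
  set Ku := ‖LinearMap.toContinuousLinearMap ((Wu T).projectionOnto (Wc T) hc)‖ with hKu
  set Kc := ‖LinearMap.toContinuousLinearMap ((Wc T).projectionOnto (Wu T) hc.symm)‖ with hKc
  have eu : ∀ w, ‖((Wu T).projectionOnto (Wc T) hc) w‖ ≤ Ku * ‖w‖ := fun w =>
    (LinearMap.toContinuousLinearMap ((Wu T).projectionOnto (Wc T) hc)).le_opNorm w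
  have ec : ∀ w, ‖((Wc T).projectionOnto (Wu T) hc.symm) w‖ ≤ Kc * ‖w‖ := fun w =>
    (LinearMap.toContinuousLinearMap ((Wc T).projectionOnto (Wu T) hc.symm)).le_opNorm w
  have hKu0 : 0 ≤ Ku := ContinuousLinearMap.opNorm_nonneg _
  have hKc0 : 0 ≤ Kc := ContinuousLinearMap.opNorm_nonneg _
  refine ⟨1 + |C₁| * Ku + C₂ * Kc, by positivity, fun v => ?_⟩
  set u := ((Wu T).projectionOnto (Wc T) hc) (inc m v) with hu
  set c := ((Wc T).projectionOnto (Wu T) hc.symm) (inc m v) with hcdef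
  have hsum : inc m v = (u : Fin m → ℂ) + (c : Fin m → ℂ) :=
    (Submodule.projection_add_projection_eq_self hc (inc m v)).symm
  have hun : ‖u‖ ≤ Ku * ‖v‖ := by
    have := eu (inc m v)
    rwa [inc_norm] at this
  have hcn : ‖c‖ ≤ Kc * ‖v‖ := by
    have := ec (inc m v)
    rwa [inc_norm] at this
  refine ⟨rp c, rp u, ?_, fun n => ?_, fun n => ?_⟩
  · funext i
    have := congrFun hsum i
    have h3 : ((v i : ℝ) : ℂ) = (u : Fin m → ℂ) i + (c : Fin m → ℂ) i := this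
    have h4 := congrArg Complex.re h3
    rw [Complex.ofReal_re, Complex.add_re] at h4
    show v i = ((c : Fin m → ℂ) i).re + ((u : Fin m → ℂ) i).re
    rw [h4, add_comm]
  · rw [← rp_cx_pow]
    refine (rp_norm _).trans ?_
    rw [← hT, ← hTc]
    have h3 := h2 n c
    have h4 : l₂ ^ n ≤ 1 := pow_le_one₀ hl₂ hl₂'.le
    calc ‖(((Tc T) ^ n) c : Fin m → ℂ)‖ ≤ C₂ * l₂ ^ n * ‖c‖ := h3
      _ ≤ C₂ * 1 * (Kc * ‖v‖) := by gcongr
      _ = (C₂ * Kc) * ‖v‖ := by ring
      _ ≤ (1 + |C₁| * Ku + C₂ * Kc) * ‖v‖ := by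
        refine mul_le_mul_of_nonneg_right ?_ (norm_nonneg _)
        have : 0 ≤ |C₁| * Ku := by positivity
        linarith
  · rw [← rp_cx_pow]
    refine (rp_norm _).trans ?_
    rw [← hT']
    have h3 := h1 n ⟨(T' ^ n) u, hinvp (Wu T) (Wu_map T) n _ u.2⟩
    have e2 : ‖((Tu T) ^ n) ⟨(T' ^ n) u, hinvp (Wu T) (Wu_map T) n _ u.2⟩‖ = ‖u‖ := by
      have : ((((Tu T) ^ n) ⟨(T' ^ n) u, hinvp (Wu T) (Wu_map T) n _ u.2⟩ : Wu T) :
          Fin m → ℂ) = u := by
        rw [hTu]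
        exact hTpow n _
      show ‖((((Tu T) ^ n) ⟨(T' ^ n) u, hinvp (Wu T) (Wu_map T) n _ u.2⟩ : Wu T) :
          Fin m → ℂ)‖ = ‖(u : Fin m → ℂ)‖
      rw [this]
    rw [e2] at h3
    have h4 : l₁ ^ n ≤ 1 := pow_le_one₀ hl₁ hl₁'.le
    calc ‖(T' ^ n) (u : Fin m → ℂ)‖ ≤ C₁ * l₁ ^ n * ‖u‖ := h3
      _ ≤ |C₁| * l₁ ^ n * ‖u‖ := by
        have := le_abs_self C₁
        gcongr
      _ ≤ |C₁| * 1 * (Ku * ‖v‖) := by gcongr
      _ = (|C₁| * Ku) * ‖v‖ := by ring
      _ ≤ (1 + |C₁| * Ku + C₂ * Kc) * ‖v‖ := by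
        refine mul_le_mul_of_nonneg_right ?_ (norm_nonneg _)
        have : 0 ≤ C₂ * Kc := by positivity
        linarith

end split

section torus

variable {m : ℕ}

/-- the torus -/
abbrev Tor (m : ℕ) : Type := Fin m → AddCircle (1 : ℝ)

/-- the endomorphism given by an integer matrix -/
noncomputable def lm (A : Matrix (Fin m) (Fin m) ℤ) (x : Tor m) : Tor m := fun i => ∑ j, A i j • x j

/-- the projection -/
noncomputable def qm (v : Fin m → ℝ) : Tor m := fun i => ((v i : ℝ) : AddCircle (1 : ℝ))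

theorem lm_add (A : Matrix (Fin m) (Fin m) ℤ) (x y : Tor m) : lm A (x + y) = lm A x + lm A y := by
  funext i
  simp [lm, Finset.sum_add_distrib]

theorem lm_sub (A : Matrix (Fin m) (Fin m) ℤ) (x y : Tor m) : lm A (x - y) = lm A x - lm A y := by
  funext i
  simp [lm, smul_sub, Finset.sum_sub_distrib]

theorem lm_neg (A : Matrix (Fin m) (Fin m) ℤ) (x : Tor m) : lm A (-x) = -lm A x := by
  funext i
  simp [lm, smul_neg, Finset.sum_neg_distrib]

theorem lm_lm (A B : Matrix (Fin m) (Fin m) ℤ) (x : Tor m) : lm A (lm B x) = lm (A * B) x := by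
  funext i
  simp only [lm, Finset.smul_sum, smul_smul, Matrix.mul_apply, Finset.sum_smul]
  rw [Finset.sum_comm]

theorem lm_one (x : Tor m) : lm (1 : Matrix (Fin m) (Fin m) ℤ) x = x := by
  funext i
  simp only [lm]
  rw [Finset.sum_eq_single i]
  · rw [Matrix.one_apply_eq, one_smul]
  · intro k _ hk
    rw [Matrix.one_apply_ne (Ne.symm hk), zero_smul]
  · intro hi
    exact absurd (Finset.mem_univ i) hi

theorem lm_cont (A : Matrix (Fin m) (Fin m) ℤ) : Continuous (lm A) := by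
  unfold lm
  fun_prop

theorem lm_qm (A : Matrix (Fin m) (Fin m) ℤ) (v : Fin m → ℝ) : lm A (qm v) = qm (am A v) := by
  funext i
  exact (coe_am A v i).symm

theorem lm_qm_iter (A : Matrix (Fin m) (Fin m) ℤ) (n : ℕ) (v : Fin m → ℝ) :
    (lm A)^[n] (qm v) = qm ((am A)^[n] v) := by
  induction n with
  | zero => rfl
  | succ n ih => rw [Function.iterate_succ_apply', Function.iterate_succ_apply', ih, lm_qm]

theorem lm_iter_sub (A : Matrix (Fin m) (Fin m) ℤ) (n : ℕ) (x y : Tor m) :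
    (lm A)^[n] (x - y) = (lm A)^[n] x - (lm A)^[n] y := by
  induction n generalizing x y with
  | zero => rfl
  | succ n ih => rw [Function.iterate_succ_apply, Function.iterate_succ_apply,
      Function.iterate_succ_apply, lm_sub, ih]

theorem lm_iter_neg (A : Matrix (Fin m) (Fin m) ℤ) (n : ℕ) (x : Tor m) :
    (lm A)^[n] (-x) = -(lm A)^[n] x := by
  induction n generalizing x with
  | zero => rfl
  | succ n ih => rw [Function.iterate_succ_apply, Function.iterate_succ_apply, lm_neg, ih]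

theorem qm_le (v : Fin m → ℝ) : ‖qm v‖ ≤ ‖v‖ := by
  rw [pi_norm_le_iff_of_nonneg (norm_nonneg _)]
  intro i
  exact (QuotientAddGroup.norm_mk_le_norm).trans (norm_le_pi_norm v i)

theorem qm_eq {v : Fin m → ℝ} (hv : ‖v‖ ≤ 1 / 2) : ‖qm v‖ = ‖v‖ := by
  refine le_antisymm (qm_le v) ?_
  rw [pi_norm_le_iff_of_nonneg (norm_nonneg _)]
  intro i
  have h1 : |v i| ≤ 1 / 2 := by
    have := norm_le_pi_norm v i
    rw [Real.norm_eq_abs] at this
    linarith
  have h2 := (AddCircle.norm_coe_eq_abs_iff (p := (1 : ℝ)) (x := v i) one_ne_zero).mpr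
    (by rw [abs_one]; exact h1)
  rw [Real.norm_eq_abs, ← h2]
  exact norm_le_pi_norm (qm v) i

theorem exists_qm (x : Tor m) : ∃ v : Fin m → ℝ, qm v = x ∧ ‖v‖ = ‖x‖ ∧ ‖v‖ ≤ 1 / 2 := by
  have h1 : ∀ i, ∃ r : ℝ, (r : AddCircle (1 : ℝ)) = x i ∧ |r| ≤ 1 / 2 := by
    intro i
    obtain ⟨s, hs⟩ := QuotientAddGroup.mk_surjective (x i)
    refine ⟨s - round s, ?_, abs_sub_round s⟩
    rw [← hs, AddCircle.coe_sub]
    have : ((round s : ℝ) : AddCircle (1 : ℝ)) = 0 := by
      rw [AddCircle.coe_eq_zero_iff]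
      exact ⟨round s, by simp⟩
    rw [this, sub_zero]
  choose v hv using h1
  have h2 : ‖v‖ ≤ 1 / 2 := by
    rw [pi_norm_le_iff_of_nonneg (by norm_num)]
    exact fun i => (hv i).2
  have h3 : qm v = x := funext fun i => (hv i).1
  exact ⟨v, h3, by rw [← h3, qm_eq h2], h2⟩

/-- affine automorphisms -/
noncomputable def aff (A : Matrix (Fin m) (Fin m) ℤ) (hA : IsUnit A.det) (b : Tor m) :
    Tor m ≃ₜ Tor m where
  toFun x := lm A x + b
  invFun x := lm A⁻¹ (x - b)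
  left_inv x := by
    show lm A⁻¹ (lm A x + b - b) = x
    rw [add_sub_cancel_right, lm_lm, Matrix.nonsing_inv_mul A hA, lm_one]
  right_inv x := by
    show lm A (lm A⁻¹ (x - b)) + b = x
    rw [lm_lm, Matrix.mul_nonsing_inv A hA, lm_one, sub_add_cancel]
  continuous_toFun := (lm_cont A).add continuous_const
  continuous_invFun := (lm_cont A⁻¹).comp (continuous_id.sub continuous_const)

theorem aff_apply (A : Matrix (Fin m) (Fin m) ℤ) (hA : IsUnit A.det) (b : Tor m) (x : Tor m) :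
    aff A hA b x = lm A x + b := rfl

theorem aff_sub (A : Matrix (Fin m) (Fin m) ℤ) (hA : IsUnit A.det) (b : Tor m) (n : ℕ)
    (x y : Tor m) : (aff A hA b)^[n] x - (aff A hA b)^[n] y = (lm A)^[n] (x - y) := by
  induction n generalizing x y with
  | zero => rfl
  | succ n ih =>
    rw [Function.iterate_succ_apply, Function.iterate_succ_apply, Function.iterate_succ_apply, ih,
      aff_apply, aff_apply, add_sub_add_right_eq_sub, lm_sub]

theorem aff_symm_sub (A : Matrix (Fin m) (Fin m) ℤ) (hA : IsUnit A.det) (b : Tor m) (n : ℕ)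
    (x y : Tor m) : (aff A hA b).symm^[n] x - (aff A hA b).symm^[n] y = (lm A⁻¹)^[n] (x - y) := by
  induction n generalizing x y with
  | zero => rfl
  | succ n ih =>
    rw [Function.iterate_succ_apply, Function.iterate_succ_apply, Function.iterate_succ_apply, ih]
    show (lm A⁻¹)^[n] (lm A⁻¹ (x - b) - lm A⁻¹ (y - b)) = _
    rw [← lm_sub, sub_sub_sub_cancel_right]

theorem am_le (A : Matrix (Fin m) (Fin m) ℤ) : ∃ R : ℝ, 1 ≤ R ∧ ∀ v, ‖am A v‖ ≤ R * ‖v‖ := by
  refine ⟨1 + ∑ i, ∑ j, |(A i j : ℝ)|, ?_, fun v => ?_⟩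
  · have : 0 ≤ ∑ i, ∑ j, |(A i j : ℝ)| := by positivity
    linarith
  · rw [pi_norm_le_iff_of_nonneg (by positivity)]
    intro i
    rw [Real.norm_eq_abs]
    calc |am A v i| ≤ ∑ j, |(A i j : ℝ) * v j| := Finset.abs_sum_le_sum_abs _ _
      _ ≤ ∑ j, |(A i j : ℝ)| * ‖v‖ := by
        refine Finset.sum_le_sum fun j _ => ?_
        rw [abs_mul]
        exact mul_le_mul_of_nonneg_left (norm_le_pi_norm v j) (abs_nonneg _)
      _ = (∑ j, |(A i j : ℝ)|) * ‖v‖ := by rw [Finset.sum_mul]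
      _ ≤ (1 + ∑ i, ∑ j, |(A i j : ℝ)|) * ‖v‖ := by
        refine mul_le_mul_of_nonneg_right ?_ (norm_nonneg _)
        have h1 : ∑ j, |(A i j : ℝ)| ≤ ∑ i, ∑ j, |(A i j : ℝ)| :=
          Finset.single_le_sum (f := fun i => ∑ j, |(A i j : ℝ)|)
            (fun i _ => Finset.sum_nonneg fun j _ => abs_nonneg _) (Finset.mem_univ i)
        linarith

/-- points with a small forward orbit are contracted -/
theorem contr0 (A A' : Matrix (Fin m) (Fin m) ℤ) (hAA : A' * A = 1) (hA : HypMat A') :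
    ∃ c C l : ℝ, 0 < c ∧ 1 ≤ C ∧ 0 < l ∧ l < 1 ∧ ∀ z : Tor m, (∀ n, ‖(lm A)^[n] z‖ ≤ c) →
      ∀ n, ‖(lm A)^[n] z‖ ≤ C * l ^ n * ‖z‖ := by
  obtain ⟨C, l, hC, hl, hl', hcontr⟩ := bdd_contr A' A hAA hA
  obtain ⟨R, hR, hAR⟩ := am_le A
  refine ⟨1 / (2 * R), C, l, by positivity, hC, hl, hl', fun z hz => ?_⟩
  obtain ⟨v, hv, hvn, -⟩ := exists_qm z
  have hc : 1 / (2 * R) ≤ 1 / 2 := by
    rw [div_le_div_iff₀ (by positivity) (by norm_num)]
    linarith
  have key : ∀ n, ‖(am A)^[n] v‖ ≤ 1 / (2 * R) := by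
    intro n
    induction n with
    | zero =>
      have := hz 0
      rw [Function.iterate_zero, id] at this ⊢
      rwa [hvn]
    | succ n ih =>
      have h1 : ‖(am A)^[n + 1] v‖ ≤ 1 / 2 := by
        rw [Function.iterate_succ_apply']
        refine (hAR _).trans ?_
        calc R * ‖(am A)^[n] v‖ ≤ R * (1 / (2 * R)) :=
              mul_le_mul_of_nonneg_left ih (by linarith)
          _ = 1 / 2 := by field_simp
      rw [← qm_eq h1, ← lm_qm_iter, hv]
      exact hz (n + 1)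
  intro n
  have h2 := hcontr v ⟨1 / (2 * R), 0, fun n _ => key n⟩ n
  rw [← hv, lm_qm_iter, hv, ← hvn]
  exact (qm_le _).trans h2

/-- splitting of the points -/
theorem split0 (A A' : Matrix (Fin m) (Fin m) ℤ) (hAA : A * A' = 1) (hA : HypMat A) :
    ∃ K : ℝ, 0 < K ∧ ∀ z : Tor m, ∃ a b : Tor m, z = a + b ∧
      (∀ n, ‖(lm A)^[n] a‖ ≤ K * ‖z‖) ∧ ∀ n, ‖(lm A')^[n] b‖ ≤ K * ‖z‖ := by
  obtain ⟨K, hK, h⟩ := split A A' hAA hA
  refine ⟨K, hK, fun z => ?_⟩
  obtain ⟨v, hv, hvn, -⟩ := exists_qm z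
  obtain ⟨a, b, h1, h2, h3⟩ := h v
  refine ⟨qm a, qm b, ?_, fun n => ?_, fun n => ?_⟩
  · rw [← hv, h1]
    funext i
    exact AddCircle.coe_add _ _ _
  · rw [lm_qm_iter, ← hvn]
    exact (qm_le _).trans (h2 n)
  · rw [lm_qm_iter, ← hvn]
    exact (qm_le _).trans (h3 n)

/-- the iterates of a hyperbolic affine automorphism -/
theorem iter_sub (A : Matrix (Fin m) (Fin m) ℤ) (hA : IsUnit A.det) (b : Tor m) (N n : ℕ)
    (x y : Tor m) : (iterHomeo (aff A hA b) N)^[n] x - (iterHomeo (aff A hA b) N)^[n] y =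
      (lm A)^[N * n] (x - y) := by
  rw [iterHomeo_iter, iterHomeo_iter, aff_sub]

theorem iter_symm_sub (A : Matrix (Fin m) (Fin m) ℤ) (hA : IsUnit A.det) (b : Tor m) (N n : ℕ)
    (x y : Tor m) : (iterHomeo (aff A hA b) N).symm^[n] x - (iterHomeo (aff A hA b) N).symm^[n] y =
      (lm A⁻¹)^[N * n] (x - y) := by
  rw [iterHomeo_symm_iter, iterHomeo_symm_iter, aff_symm_sub]

/-- closeness at the multiples of `N` -/
theorem fill (A : Matrix (Fin m) (Fin m) ℤ) {N : ℕ} (hN : 1 ≤ N) {c : ℝ} (hc : 0 < c) :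
    ∃ c' > 0, c' ≤ c ∧ ∀ z : Tor m, (∀ n, ‖(lm A)^[N * n] z‖ ≤ c') → ∀ n, ‖(lm A)^[n] z‖ ≤ c := by
  obtain ⟨R, hR, hAR⟩ := am_le A
  have hlm : ∀ z : Tor m, ‖lm A z‖ ≤ R * ‖z‖ := by
    intro z
    obtain ⟨v, hv, hvn, -⟩ := exists_qm z
    rw [← hv, lm_qm, hv, ← hvn]
    exact (qm_le _).trans (hAR v)
  have hlmr : ∀ (r : ℕ) (z : Tor m), ‖(lm A)^[r] z‖ ≤ R ^ r * ‖z‖ := by
    intro r z
    induction r with
    | zero => simp
    | succ r ih =>
      rw [Function.iterate_succ_apply']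
      refine (hlm _).trans ?_
      calc R * ‖(lm A)^[r] z‖ ≤ R * (R ^ r * ‖z‖) := mul_le_mul_of_nonneg_left ih (by linarith)
        _ = R ^ (r + 1) * ‖z‖ := by ring
  have hRN : 0 < R ^ N := by positivity
  refine ⟨c / R ^ N, by positivity, div_le_self hc.le (one_le_pow₀ hR), fun z hz n => ?_⟩
  have hnn : n = n % N + N * (n / N) := (Nat.mod_add_div n N).symm
  rw [hnn, Function.iterate_add_apply]
  refine (hlmr _ _).trans ?_
  have h1 : R ^ (n % N) ≤ R ^ N := pow_le_pow_right₀ hR (Nat.mod_lt _ (by omega)).le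
  calc R ^ (n % N) * ‖(lm A)^[N * (n / N)] z‖ ≤ R ^ N * (c / R ^ N) :=
        mul_le_mul h1 (hz _) (norm_nonneg _) hRN.le
    _ = c := by field_simp

/-- the contraction for the iterates -/
theorem contrN (A A' : Matrix (Fin m) (Fin m) ℤ) (hAA : A' * A = 1) (hA : HypMat A') :
    ∀ᶠ N : ℕ in atTop, ∃ c₀ > 0, ∀ c, 0 < c → c ≤ c₀ → ∀ z : Tor m,
      (∀ n, ‖(lm A)^[N * n] z‖ ≤ c) → ∀ n, ‖(lm A)^[N * n] z‖ ≤ c * (1 / 2) ^ n := by
  obtain ⟨c₁, C, l, hc₁, hC, hl, hl', h⟩ := contr0 A A' hAA hA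
  have h1 : Tendsto (fun N : ℕ => C * l ^ N) atTop (𝓝 0) := by
    have := (tendsto_pow_atTop_nhds_zero_of_lt_one hl.le hl').const_mul C
    rwa [mul_zero] at this
  filter_upwards [h1.eventually (gt_mem_nhds (show (0 : ℝ) < 1 / 2 by norm_num)),
    eventually_ge_atTop 1] with N hN hN1
  obtain ⟨c₀, hc₀, -, h2⟩ := fill A hN1 hc₁
  refine ⟨c₀, hc₀, fun c hc hcc z hz n => ?_⟩
  have h3 := h z (h2 z fun n => (hz n).trans hcc) (N * n)
  have hz0 : ‖z‖ ≤ c := by
    have := hz 0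
    rwa [Nat.mul_zero, Function.iterate_zero, id] at this
  rcases Nat.eq_zero_or_pos n with hn | hn
  · subst hn
    rw [pow_zero, mul_one]
    exact hz 0
  · obtain ⟨k, rfl⟩ := Nat.exists_eq_succ_of_ne_zero hn.ne'
    have hlN : 0 < l ^ N := pow_pos hl N
    have hl2 : l ^ N ≤ 1 / 2 := by
      have : l ^ N ≤ C * l ^ N := le_mul_of_one_le_left hlN.le hC
      linarith
    have h4 : C * l ^ (N * (k + 1)) ≤ (1 / 2) ^ (k + 1) := by
      rw [Nat.mul_add, mul_one, pow_add, pow_mul]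
      calc C * ((l ^ N) ^ k * l ^ N) = (l ^ N) ^ k * (C * l ^ N) := by ring
        _ ≤ (1 / 2) ^ k * (1 / 2) :=
            mul_le_mul (pow_le_pow_left₀ hlN.le hl2 k) hN.le (by positivity) (by positivity)
        _ = (1 / 2) ^ (k + 1) := by ring
    calc ‖(lm A)^[N * (k + 1)] z‖ ≤ C * l ^ (N * (k + 1)) * ‖z‖ := h3
      _ ≤ (1 / 2) ^ (k + 1) * c := mul_le_mul h4 hz0 (norm_nonneg _) (by positivity)
      _ = c * (1 / 2) ^ (k + 1) := by ring

/-- **Local product structure** of the iterates. -/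
theorem exists_lp (A : Matrix (Fin m) (Fin m) ℤ) (hA : IsUnit A.det) (b : Tor m) (hyp : HypMat A) :
    ∀ᶠ N : ℕ in atTop, ∃ c, LP (iterHomeo (aff A hA b) N) c := by
  have e1 := contrN A A⁻¹ (Matrix.nonsing_inv_mul A hA)
    (Pool.Agent.H779R2.To.HypMat.inv_aux A hA hyp)
  have e2 := contrN A⁻¹ A (Matrix.mul_nonsing_inv A hA) hyp
  filter_upwards [e1, e2] with N ⟨c₁, hc₁, h1⟩ ⟨c₂, hc₂, h2⟩
  obtain ⟨K, hK, h3⟩ := split0 A A⁻¹ (Matrix.mul_nonsing_inv A hA) hyp
  refine ⟨min c₁ c₂, lt_min hc₁ hc₂, fun x y hxy n => ?_, fun x y hxy n => ?_, fun ε hε => ?_⟩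
  · rw [dist_eq_norm, iter_sub]
    refine h1 _ (lt_min hc₁ hc₂) (min_le_left _ _) _ (fun n => ?_) n
    rw [← iter_sub A hA b, ← dist_eq_norm]
    exact hxy n
  · rw [dist_eq_norm, iter_symm_sub]
    refine h2 _ (lt_min hc₁ hc₂) (min_le_right _ _) _ (fun n => ?_) n
    rw [← iter_symm_sub A hA b, ← dist_eq_norm]
    exact hxy n
  · refine ⟨ε / K, by positivity, fun x y hxy => ?_⟩
    obtain ⟨a, d, h4, h5, h6⟩ := h3 (x - y)
    have h7 : K * ‖x - y‖ ≤ ε := by
      rw [dist_eq_norm, lt_div_iff₀ hK] at hxy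
      linarith
    refine ⟨x - a, fun n => ?_, fun n => ?_⟩
    · rw [dist_eq_norm, iter_sub, sub_sub_cancel]
      exact (h5 _).trans h7
    · rw [dist_eq_norm, iter_symm_sub]
      have h8 : y - (x - a) = -d := by
        have : x - y = a + d := h4
        have h9 : x = a + d + y := by rw [← this]; abel
        rw [h9]
        abel
      rw [h8, lm_iter_neg, norm_neg]
      exact (h6 _).trans h7

/-- **Expansiveness.** -/
theorem aff_expansive (A : Matrix (Fin m) (Fin m) ℤ) (hA : IsUnit A.det) (b : Tor m)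
    (hyp : HypMat A) : Expansive (aff A hA b) := by
  obtain ⟨N, c, hLP⟩ := (exists_lp A hA b hyp).exists
  refine ⟨{q | dist q.1 q.2 < c}, ?_, fun x y hxy => ?_⟩
  · rw [nhdsSet_diagonal_eq_uniformity]
    exact Metric.dist_mem_uniformity hLP.c_pos
  · refine Pool.Agent.H789R2.GP.expansive hLP (fun n => ?_) (fun n => ?_)
    · rw [iterHomeo_iter, iterHomeo_iter]
      exact (hxy (N * n)).1.le
    · rw [iterHomeo_symm_iter, iterHomeo_symm_iter]
      exact (hxy (N * n)).2.le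

/-- **Quadrilaterals.** -/
theorem aff_iqs (A : Matrix (Fin m) (Fin m) ℤ) (hA : IsUnit A.det) (b : Tor m) {N : ℕ} {c : ℝ}
    (hLP : LP (iterHomeo (aff A hA b) N) c) : Nonempty (IQS (iterHomeo (aff A hA b) N) 1) := by
  set g := iterHomeo (aff A hA b) N with hg
  have hd : ∀ (n : ℕ) (x y : Tor m), dist (g^[n] x) (g^[n] y) = ‖(lm A)^[N * n] (x - y)‖ :=
    fun n x y => by rw [dist_eq_norm, hg, iter_sub]
  have hd' : ∀ (n : ℕ) (x y : Tor m),
      dist (g.symm^[n] x) (g.symm^[n] y) = ‖(lm A⁻¹)^[N * n] (x - y)‖ :=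
    fun n x y => by rw [dist_eq_norm, hg, iter_symm_sub]
  have ws : ∀ {x y x' y' : Tor m}, x - y = x' - y' → WS g x y → WS g x' y' := by
    intro x y x' y' h h1
    unfold WS at h1 ⊢
    simp only [hd] at h1 ⊢
    rwa [h] at h1
  have wu : ∀ {x y x' y' : Tor m}, x - y = x' - y' → WS g.symm x y → WS g.symm x' y' := by
    intro x y x' y' h h1
    unfold WS at h1 ⊢
    simp only [hd'] at h1 ⊢
    rwa [h] at h1
  have sr : ∀ {x y x' y' : Tor m} {ε : ℝ}, x - y = x' - y' → SR g ε x y → SR g ε x' y' := by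
    intro x y x' y' ε h h1 n
    have := h1 n
    rwa [hd, h, ← hd] at this
  have su : ∀ {x y x' y' : Tor m} {ε : ℝ}, x - y = x' - y' → SR g.symm ε x y →
      SR g.symm ε x' y' := by
    intro x y x' y' ε h h1 n
    have := h1 n
    rwa [hd', h, ← hd'] at this
  have hc := hLP.c_pos
  have hgq : ∀ a s u : Tor m, g (s + u - a) = g s + g u - g a := by
    intro a s u
    have h1 := iter_sub A hA b N 1 (s + u - a) s
    have h2 := iter_sub A hA b N 1 u a
    rw [Function.iterate_one] at h1 h2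
    have h3 : s + u - a - s = u - a := by abel
    rw [h3, ← h2, ← hg] at h1
    rw [← sub_eq_zero] at h1 ⊢
    rw [← h1]
    abel
  have hgq' : ∀ a s u : Tor m, g.symm (s + u - a) = g.symm s + g.symm u - g.symm a := by
    intro a s u
    have h1 := iter_symm_sub A hA b N 1 (s + u - a) s
    have h2 := iter_symm_sub A hA b N 1 u a
    rw [Function.iterate_one] at h1 h2
    have h3 : s + u - a - s = u - a := by abel
    rw [h3, ← h2, ← hg] at h1
    rw [← sub_eq_zero] at h1 ⊢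
    rw [← h1]
    abel
  have shF : ∀ x y : Tor m, WS g x y → WS g (g x) (g y) := fun x y h => by
    unfold WS at h ⊢
    exact (h.comp (tendsto_add_atTop_nat 1)).congr fun n => by
      simp only [Function.comp_apply, Function.iterate_succ_apply]
  have shU : ∀ x y : Tor m, WS g.symm x y → WS g.symm (g x) (g y) := fun x y h => by
    have h1 := Pool.Agent.W740.TC.Coc.ws_iter (g := g) h 1
    exact h1
  have shF' : ∀ x y : Tor m, WS g x y → WS g (g.symm x) (g.symm y) := fun x y h => by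
    have h1 := ws_back (g := g) h 1
    exact h1
  have shU' : ∀ x y : Tor m, WS g.symm x y → WS g.symm (g.symm x) (g.symm y) := fun x y h => by
    unfold WS at h ⊢
    exact (h.comp (tendsto_add_atTop_nat 1)).congr fun n => by
      simp only [Function.comp_apply, Function.iterate_succ_apply]
  refine ⟨{
    Q := fun a s u x => WS g a s ∧ WS g.symm a u ∧ x = s + u - a
    ex := fun a s u h1 h2 => ⟨_, h1, h2, rfl⟩
    unique := fun a s u x x' h h' => h.2.2.trans h'.2.2.symm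
    wS := ?_
    wU := ?_
    compU := ?_
    compS := ?_
    flipU := ?_
    flipS := ?_
    tiny := ?_
    contS := ?_
    contU := ?_
    itF := ?_
    itB := ?_ }⟩
  · rintro a s u x ⟨h1, h2, rfl⟩
    exact ws (by abel) h1
  · rintro a s u x ⟨h1, h2, rfl⟩
    exact wu (by abel) h2
  · rintro a s u x u' x' ⟨h1, h2, rfl⟩ ⟨h3, h4, rfl⟩
    exact ⟨h1, h2.trans h4, by abel⟩
  · rintro a s u x s' x' ⟨h1, h2, rfl⟩ ⟨h3, h4, rfl⟩
    exact ⟨h1.trans h3, h2, by abel⟩
  · rintro a s u x ⟨h1, h2, rfl⟩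
    exact ⟨ws (by abel) h1, h2.symm', by abel⟩
  · rintro a s u x ⟨h1, h2, rfl⟩
    exact ⟨h1.symm', wu (by abel) h2, by abel⟩
  · refine ⟨c / 2, by positivity, fun a s u x h1 h2 h3 h4 => ?_⟩
    refine ⟨WS.of_SR (hLP.cS _ _ (h1.mono (by linarith))),
      WS.of_SR (hLP.cU _ _ (h2.mono (by linarith))), ?_⟩
    refine Pool.Agent.H789R2.GP.expansive hLP (fun n => ?_) fun n => ?_
    · rw [hd]
      have e1 : x - (s + u - a) = (a - s) - (u - x) := by abel
      have k1 := h1 n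
      have k2 := h3 n
      rw [hd] at k1 k2
      rw [e1, lm_iter_sub]
      refine (norm_sub_le _ _).trans ?_
      linarith
    · rw [hd']
      have e1 : x - (s + u - a) = (a - u) - (s - x) := by abel
      have k1 := h2 n
      have k2 := h4 n
      rw [hd'] at k1 k2
      rw [e1, lm_iter_sub]
      refine (norm_sub_le _ _).trans ?_
      linarith
  · rintro j ε hε
    refine ⟨ε, hε, ?_⟩
    rintro a s u x ⟨h1, h2, rfl⟩ h3 -
    exact sr (by abel) h3
  · rintro j ε hε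
    refine ⟨ε, hε, ?_⟩
    rintro a s u x ⟨h1, h2, rfl⟩ h3 -
    exact su (by abel) h3
  · rintro a s u x ⟨h1, h2, rfl⟩
    exact ⟨shF _ _ h1, shU _ _ h2, hgq _ _ _⟩
  · rintro a s u x ⟨h1, h2, rfl⟩
    exact ⟨shF' _ _ h1, shU' _ _ h2, hgq' _ _ _⟩

end torus

end Pool.Agent.X104.TorSys
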