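import Pool.Agent.X104.TorSys
import Pool.Agent.Y331.EP.Trans

/-!
Anosov diffeomorphisms that are semiconjugate to hyperbolic affine automorphisms of tori of any
dimension: equivalent conditions for the semiconjugacy, and the classification.
-/

set_option autoImplicit false
set_option linter.unusedSectionVars false

open Filter Topology Set Metric
open scoped Manifold ContDiff

namespace Pool.Agent.X104.TorTF

open Pool.Agent.H721R2 Pool.Agent.H789R2.AN Pool.Agent.H789R2.GP Pool.Agent.TH289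
open Pool.Agent.TH289.K Pool.Agent.TH289.L
open Pool.Agent.TH761.L289 (light_unif)
open Pool.Agent.W740.TU (anosov_symm transitive_symm UnstInj)
open Pool.Agent.X104.TorSys Pool.Agent.X104.TorFac
open Pool.Agent.H779R2.To (IsToral HypMat)
open Pool.Agent.Y331.EP

section abs

variable {X F : Type*} [MetricSpace X] [CompactSpace X] [NormedAddCommGroup F]
  [InnerProductSpace ℝ F] [FiniteDimensional ℝ F]

/-- Light semiconjugacies to hyperbolic affine automorphisms of tori give global product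
structure. -/
theorem abs_light_tor {E : Type*} [NormedAddCommGroup E]
    [NormedSpace ℝ E] [ProperSpace E] [ChartedSpace E X] [ConnectedSpace X]
    (S : HypSys X F) {f : X ≃ₜ X} {m : ℕ} (A : Matrix (Fin m) (Fin m) ℤ) (hA : IsUnit A.det)
    (b : Tor m) {N : ℕ} (hN : 1 ≤ N) (hf : S.g = iterHomeo f N) {c' : ℝ}
    (hk : LP (iterHomeo (aff A hA b) N) c') {h : X → Tor m} (H : SC f (aff A hA b) h)
    (hL : Light f.symm h) : GPS f := by
  obtain ⟨c, hg⟩ := exists_LP S
  have hX : ULC X := ulc_of_charted (X := X) (E := E)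
  obtain ⟨T⟩ := aff_iqs A hA b hk
  have H' : SC S.g (iterHomeo (aff A hA b) N) h := ⟨H.cont, fun x => by
    rw [hf]
    exact H.iter N x⟩
  have hL' : Light S.g.symm h := by
    rw [hf]
    exact light_iter hN hL
  have hlf := lf_of_light H' hX hg hk one_pos T (fun ε hε => light_unif hg H' hL' hε)
  obtain ⟨c₁, hc₁, ⟨T₁⟩⟩ := exists_IQS hg hX hlf
  exact gps_of_iqs hN hf hg hc₁ T₁

end abs

section manifold

variable {E : Type*} [NormedAddCommGroup E] [NormedSpace ℝ E] [FiniteDimensional ℝ E]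
  {M : Type*} [TopologicalSpace M] [T2Space M] [CompactSpace M] [ConnectedSpace M]
  [ChartedSpace E M] [IsManifold 𝓘(ℝ, E) ∞ M]

theorem man_light_unst_tor (f : Diffeomorph 𝓘(ℝ, E) 𝓘(ℝ, E) M M 1)
    (Es Eu : ∀ x : M, Submodule ℝ (TangentSpace 𝓘(ℝ, E) x)) (hA : IsAnosov f Es Eu)
    {m : ℕ} (A : Matrix (Fin m) (Fin m) ℤ) (hdet : IsUnit A.det) (hyp : HypMat A) (b : Tor m)
    (h : M → Tor m) (hc : Continuous h) (hh : ∀ x, h (f x) = aff A hdet b (h x))
    (hi : Light f.toHomeomorph.symm h) : GPS f.toHomeomorph := by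
  obtain ⟨m', ee, hee, hemb, hinje⟩ :=
    exists_embedding_euclidean_of_compact (I := 𝓘(ℝ, E)) (M := M)
  let _ : MetricSpace M := hemb.isEmbedding.comapMetricSpace ee
  have hiso : ∀ x y : M, dist x y = ‖ee x - ee y‖ := fun x y => dist_eq_norm (ee x) (ee y)
  have he1 : ContMDiff 𝓘(ℝ, E) (𝓡 m') 1 ee := hee.of_le (by simp)
  obtain ⟨N, ⟨⟨S, hg, -, -, -⟩, ⟨c', hk⟩⟩, hN⟩ :=
    (((exists_sys_ev hiso he1 hinje f Es Eu hA).and
      (exists_lp A hdet b hyp)).and (eventually_ge_atTop 1)).exists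
  have : ProperSpace E := FiniteDimensional.proper_real E
  exact abs_light_tor (E := E) S A hdet b hN hg hk (h := h) ⟨hc, hh⟩ hi

theorem symm_rel (f : Diffeomorph 𝓘(ℝ, E) 𝓘(ℝ, E) M M 1) {m : ℕ}
    (A : Matrix (Fin m) (Fin m) ℤ) (hdet : IsUnit A.det) (b : Tor m) (h : M → Tor m)
    (hh : ∀ x, h (f x) = aff A hdet b (h x)) (x : M) :
    h (f.symm x) = aff A⁻¹ (Matrix.isUnit_nonsing_inv_det A hdet) (-lm A⁻¹ b) (h x) := by
  have h1 := hh (f.symm x)
  rw [f.apply_symm_apply] at h1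
  rw [aff_apply, h1, aff_apply, lm_add, lm_lm, Matrix.nonsing_inv_mul A hdet, lm_one]
  abel

/-- **Light semiconjugacies to hyperbolic affine automorphisms of tori.** -/
theorem man_light_tor (f : Diffeomorph 𝓘(ℝ, E) 𝓘(ℝ, E) M M 1)
    (Es Eu : ∀ x : M, Submodule ℝ (TangentSpace 𝓘(ℝ, E) x)) (hA : IsAnosov f Es Eu)
    {m : ℕ} (A : Matrix (Fin m) (Fin m) ℤ) (hdet : IsUnit A.det) (hyp : HypMat A) (b : Tor m)
    (h : M → Tor m) (hc : Continuous h) (hh : ∀ x, h (f x) = aff A hdet b (h x))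
    (hi : Light f.toHomeomorph h ∨ Light f.toHomeomorph.symm h) :
    TopTransitive f ∧ GPS f.toHomeomorph := by
  have key : GPS f.toHomeomorph := by
    rcases hi with hi | hi
    · have h2 := man_light_unst_tor f.symm Eu Es (anosov_symm f Es Eu hA) A⁻¹
        (Matrix.isUnit_nonsing_inv_det A hdet) (Pool.Agent.H779R2.To.HypMat.inv_aux A hdet hyp)
        _ h hc (symm_rel f A hdet b h hh) hi
      exact GPS.symm (show GPS f.toHomeomorph.symm from h2)
    · exact man_light_unst_tor f Es Eu hA A hdet hyp b h hc hh hi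
  exact ⟨(man_self f Es Eu hA key).1, key⟩

/-- local injectivity gives injectivity on the local unstable sets -/
theorem unstInj_of_loc {M : Type*} [TopologicalSpace M] [CompactSpace M]
    [TopologicalSpace.MetrizableSpace M] {Y : Type*} {h : M → Y}
    (h4 : ∀ x, ∃ U ∈ 𝓝 x, InjOn h U) (finv : M → M) : UnstInj finv h := by
  let _ : MetricSpace M := TopologicalSpace.metrizableSpaceMetric M
  have hcomp : IsCompact (univ : Set M) := isCompact_univ
  obtain ⟨δ, hδ, hleb⟩ := lebesgue_number_lemma_of_metric hcomp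
    (c := fun x : M => interior (h4 x).choose) (fun x => isOpen_interior)
    (fun x _ => mem_iUnion.mpr ⟨x, mem_interior_iff_mem_nhds.mpr (h4 x).choose_spec.1⟩)
  refine ⟨{p | dist p.1 p.2 < δ}, ?_, fun x y hxy he => ?_⟩
  · rw [nhdsSet_diagonal_eq_uniformity]
    exact Metric.dist_mem_uniformity hδ
  · obtain ⟨i, hi⟩ := hleb x (mem_univ x)
    have h0 : dist x y < δ := hxy 0
    exact (h4 i).choose_spec.2 (interior_subset (hi (mem_ball_self hδ)))
      (interior_subset (hi (by rw [mem_ball, dist_comm]; exact h0))) he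

/-- injectivity on the local unstable sets: the fibre of `p` meets the unstable set of `p` only
in `p` -/
theorem fib_unst {M : Type*} [TopologicalSpace M] (f : M ≃ₜ M) {Y : Type*} (g : Y ≃ Y) {h : M → Y} (hh : ∀ x, h (f x) = g (h x))
    (hi : UnstInj f.symm h) (p : M) : h ⁻¹' {h p} ∩ {y | Asym f.symm p y} = {p} := by
  ext y
  constructor
  · rintro ⟨h1, h2⟩
    obtain ⟨𝒰, h𝒰, h3⟩ := hi
    obtain ⟨n₀, hn₀⟩ := eventually_atTop.mp (h2 h𝒰)
    have h4 : f.symm^[n₀] p = f.symm^[n₀] y := by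
      refine h3 _ _ (fun n => ?_) ?_
      · rw [← Function.iterate_add_apply, ← Function.iterate_add_apply]
        exact hn₀ (n + n₀) (by omega)
      · have hs : ∀ x, h (f.symm x) = g.symm (h x) := fun x => by
          rw [Equiv.eq_symm_apply, ← hh, f.apply_symm_apply]
        have hit : ∀ z, h (f.symm^[n₀] z) = g.symm^[n₀] (h z) := fun z =>
          (Function.Semiconj.iterate_right (f := h) (ga := f.symm) (gb := g.symm) hs n₀) z
        rw [hit, hit]
        have h5 : h y = h p := h1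
        rw [h5]
    exact (f.symm.injective.iterate n₀ h4).symm
  · rintro rfl
    refine ⟨rfl, ?_⟩
    intro 𝒱 h𝒱
    rw [Filter.mem_map]
    exact Filter.univ_mem' fun n => subset_of_mem_nhdsSet h𝒱 (show f.symm^[n] y = f.symm^[n] y from rfl)

end manifold

section metric

variable {E : Type*} [NormedAddCommGroup E] [NormedSpace ℝ E] [FiniteDimensional ℝ E]

universe u

variable {M : Type u} [MetricSpace M] [CompactSpace M] [ConnectedSpace M]
    [ChartedSpace E M] [IsManifold 𝓘(ℝ, E) ∞ M]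

/-- **Semiconjugacies to hyperbolic affine automorphisms of tori of any dimension.** -/
theorem man_tor_tfae (f : Diffeomorph 𝓘(ℝ, E) 𝓘(ℝ, E) M M 1)
    (Es Eu : ∀ x : M, Submodule ℝ (TangentSpace 𝓘(ℝ, E) x)) (hA : IsAnosov f Es Eu)
    {m : ℕ} (A : Matrix (Fin m) (Fin m) ℤ) (hdet : IsUnit A.det) (hyp : HypMat A) (b : Tor m)
    (h : M → Tor m) (hc : Continuous h) (hh : ∀ x, h (f x) = aff A hdet b (h x)) :
    List.TFAE [TopTransitive f ∧
        Dynamics.coverEntropy f univ ≤ Dynamics.coverEntropy (aff A hdet b) (range h),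
      ∀ x y, h x = h y → Asym f x y → Asym f.symm x y → x = y,
      ∃ B : ℕ, ∀ x, {y | h y = h x ∧ Asym f x y ∧ Asym f.symm x y}.encard ≤ B,
      ∀ y, (h ⁻¹' {y}).Countable,
      ∃ N : ℕ, ∀ y, (h ⁻¹' {y}).encard ≤ N,
      UnstInj f h,
      UnstInj f.symm h,
      (Light f.toHomeomorph h ∨ Light f.toHomeomorph.symm h) ∧
        ∃ p ∈ Function.periodicPts f, (h ⁻¹' {h p} ∩ {y | Asym f p y}).Finite ∨
          (h ⁻¹' {h p} ∩ {y | Asym f.symm p y}).Finite,
      ∀ x, ∃ U ∈ 𝓝 x, InjOn h U] := by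
  have hgx := aff_expansive A hdet b hyp
  obtain ⟨eg, hGe⟩ := ex_of_expansive hgx
  obtain ⟨ef, hE⟩ := ex_of_expansive (expansive_of_anosov f Es Eu hA)
  have key := fun hT : TopTransitive f =>
    abs_range hE (man_shad f Es Eu hA) (show TT f.toHomeomorph from hT) hGe hc hh
  have k34 : (∃ B : ℕ, ∀ x, {y | h y = h x ∧ Asym f x y ∧ Asym f.symm x y}.encard ≤ B) →
      ∀ y, (h ⁻¹' {y}).Countable := by
    intro h4 y
    obtain ⟨N, hN⟩ := man_bdd f Es Eu hA (aff A hdet b) hgx h hc hh h4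
    exact (Set.finite_of_encard_le_coe (hN y)).countable
  have kc : (∀ y, (h ⁻¹' {y}).Countable) → TopTransitive f ∧ GPS f.toHomeomorph := fun h3 =>
    man_light_tor f Es Eu hA A hdet hyp b h hc hh (Or.inl (light_of_countable f.toHomeomorph h h3))
  have kb : (∃ N : ℕ, ∀ y, (h ⁻¹' {y}).encard ≤ N) → ∀ y, (h ⁻¹' {y}).Countable := by
    rintro ⟨N, hN⟩ y
    exact (Set.finite_of_encard_le_coe (hN y)).countable
  have k89 : (Light f.toHomeomorph h ∨ Light f.toHomeomorph.symm h) →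
      (∃ p ∈ Function.periodicPts f, (h ⁻¹' {h p} ∩ {y | Asym f p y}).Finite ∨
          (h ⁻¹' {h p} ∩ {y | Asym f.symm p y}).Finite) → ∀ x, ∃ U ∈ 𝓝 x, InjOn h U := by
    rintro hL ⟨p, hp, hfin⟩
    obtain ⟨-, hG⟩ := man_light_tor f Es Eu hA A hdet hyp b h hc hh hL
    exact man_exp_one f Es Eu hA hG (aff A hdet b) hgx h hc hh hp hfin
  tfae_have 2 → 3 := one_of_sep f.toHomeomorph h
  tfae_have 3 → 4 := k34
  tfae_have 4 → 5 := fun h3 => ((key (kc h3).1).out 1 3).1 h3
  tfae_have 5 → 1 := fun h5 => ⟨(kc (kb h5)).1, ((key (kc (kb h5)).1).out 0 3).2 h5⟩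
  tfae_have 1 → 2 := fun ⟨h1, h2⟩ =>
    (hm_all_iff f.toHomeomorph h).1 (((key h1).out 0 2).1 h2)
  tfae_have 5 → 8 := by
    intro h5
    have h3 := kb h5
    obtain ⟨p, hp⟩ := man_pp f Es Eu hA (kc h3).1
    obtain ⟨N, hN⟩ := h5
    exact ⟨Or.inl (light_of_countable f.toHomeomorph h h3), p, hp,
      Or.inl ((Set.finite_of_encard_le_coe (hN (h p))).subset inter_subset_left)⟩
  tfae_have 8 → 9 := fun h8 => k89 h8.1 h8.2
  tfae_have 9 → 6 := fun h9 => unstInj_of_loc h9 f
  tfae_have 9 → 7 := fun h9 => unstInj_of_loc h9 f.symm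
  tfae_have 7 → 8 := by
    intro h7
    have hL : Light f.toHomeomorph.symm h :=
      light_of_inj (f := f.toHomeomorph.symm) (symm_rel f A hdet b h hh) h7
    obtain ⟨hT, -⟩ := man_light_tor f Es Eu hA A hdet hyp b h hc hh (Or.inr hL)
    obtain ⟨p, hp⟩ := man_pp f Es Eu hA hT
    refine ⟨Or.inr hL, p, hp, Or.inr ?_⟩
    have := fib_unst f.toHomeomorph (aff A hdet b).toEquiv (h := h) hh h7 p
    rw [show {y | Asym f.symm p y} = {y | Asym f.toHomeomorph.symm p y} from rfl, this]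
    exact Set.finite_singleton p
  tfae_have 6 → 8 := by
    intro h6
    have hL : Light f.toHomeomorph h := light_of_inj (f := f.toHomeomorph) hh h6
    obtain ⟨hT, -⟩ := man_light_tor f Es Eu hA A hdet hyp b h hc hh (Or.inl hL)
    obtain ⟨p, hp⟩ := man_pp f Es Eu hA hT
    refine ⟨Or.inl hL, p, hp, Or.inl ?_⟩
    have := fib_unst f.toHomeomorph.symm
      (aff A⁻¹ (Matrix.isUnit_nonsing_inv_det A hdet) (-lm A⁻¹ b)).toEquiv (h := h)
      (symm_rel f A hdet b h hh) h6 p
    rw [show {y | Asym f p y} = {y | Asym f.toHomeomorph.symm.symm p y} from rfl, this]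
    exact Set.finite_singleton p
  tfae_have 9 → 4 := by
    intro h9 y
    have h10 := unstInj_of_loc h9 id
    obtain ⟨𝒰, h𝒰, h11⟩ := h10
    rw [nhdsSet_diagonal_eq_uniformity, Metric.mem_uniformity_dist] at h𝒰
    obtain ⟨ε, hε, h2⟩ := h𝒰
    refine (finite_of_sep (S := h ⁻¹' {y}) hε fun p hp p' hp' hd => ?_).countable
    refine h11 p p' (fun n => ?_) ?_
    · rw [Function.iterate_id]
      exact h2 hd
    · have e1 : h p = y := hp
      have e2 : h p' = y := hp'
      rw [e1, e2]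
  tfae_finish

end metric

end Pool.Agent.X104.TorTF
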